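import Pool.Agent.Q195.CutLoc.Paths

/-!
# Calibration near the equator
-/

open MeasureTheory Set Filter

namespace Q195.CutLoc

/-- `k(r) = √(1 - (ν/m)²)` with `ν = 2/9`, cut off for small `m`. -/
noncomputable def kf (r : ℝ) : ℝ := Real.sqrt (1 - ((2 / 9) / max (m r) (4 / 9)) ^ 2)

theorem kf_cont : Continuous kf := by
  have hm := m_continuous
  have h : Continuous fun r => (2 / 9 : ℝ) / max (m r) (4 / 9) :=
    continuous_const.div (hm.max continuous_const) fun r =>
      (lt_of_lt_of_le (by norm_num : (0 : ℝ) < 4 / 9) (le_max_right _ _)).ne'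
  unfold kf
  exact (continuous_const.sub (h.pow 2)).sqrt

theorem kf_sq {r : ℝ} (hr : 4 / 9 ≤ m r) : kf r ^ 2 = 1 - (2 / 9 / m r) ^ 2 := by
  unfold kf
  rw [max_eq_left hr, Real.sq_sqrt]
  have : 2 / 9 / m r ≤ 1 := by
    rw [div_le_one (by linarith)]; linarith
  have h0 : 0 ≤ 2 / 9 / m r := div_nonneg (by norm_num) (by linarith)
  nlinarith

theorem kf_nonneg (r : ℝ) : 0 ≤ kf r := Real.sqrt_nonneg _

theorem kf_le (r : ℝ) : kf r ≤ 1 := by
  unfold kf
  rw [Real.sqrt_le_one]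
  nlinarith [sq_nonneg (2 / 9 / max (m r) (4 / 9))]

/-- `h' = -k`. -/
noncomputable def hf (r : ℝ) : ℝ := -∫ s in (0 : ℝ)..r, kf s

theorem hf_deriv (r : ℝ) : HasDerivAt hf (-kf r) r :=
  (intervalIntegral.integral_hasDerivAt_right (kf_cont.intervalIntegrable _ _)
    (kf_cont.stronglyMeasurableAtFilter _ _) kf_cont.continuousAt).neg

theorem hf_lip (x y : ℝ) : |hf x - hf y| ≤ 1 * |x - y| := by
  have := Convex.norm_image_sub_le_of_norm_hasDerivWithin_le (f := hf) (C := 1) (s := univ)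
    (x := y) (y := x) (fun z _ => (hf_deriv z).hasDerivWithinAt) (fun z _ => by
      rw [norm_neg, Real.norm_of_nonneg (kf_nonneg z)]; exact kf_le z) convex_univ
      (mem_univ _) (mem_univ _)
  simpa using this

theorem arctan_lip (x y : ℝ) : |Real.arctan x - Real.arctan y| ≤ 1 * |x - y| := by
  have := Convex.norm_image_sub_le_of_norm_hasDerivWithin_le (f := Real.arctan) (C := 1)
    (s := univ) (x := y) (y := x) (fun z _ => (Real.hasDerivAt_arctan z).hasDerivWithinAt)
    (fun z _ => by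
      rw [Real.norm_of_nonneg (by positivity)]
      rw [div_le_one (by positivity)]
      nlinarith [sq_nonneg z]) convex_univ (mem_univ _) (mem_univ _)
  simpa using this

theorem inv_lip (x y : ℝ) : |1 / max x (4 / 9) - 1 / max y (4 / 9)| ≤ 6 * |x - y| := by
  have h1 : (4 / 9 : ℝ) ≤ max x (4 / 9) := le_max_right _ _
  have h2 : (4 / 9 : ℝ) ≤ max y (4 / 9) := le_max_right _ _
  have h3 : |max x (4 / 9) - max y (4 / 9)| ≤ |x - y| := abs_max_sub_max_le_abs x y (4 / 9)
  set u := max x (4 / 9)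
  set v := max y (4 / 9)
  have hu : 0 < u := by linarith
  have hv : 0 < v := by linarith
  have e : 1 / u - 1 / v = (v - u) / (u * v) := by
    field_simp
  rw [e, abs_div, abs_of_pos (mul_pos hu hv), div_le_iff₀ (mul_pos hu hv), abs_sub_comm v u]
  have : 16 / 81 ≤ u * v := by nlinarith
  nlinarith [abs_nonneg (x - y)]

/-- The calibrating function. -/
noncomputable def Sf (q : Pt) : ℝ := 2 / 9 * Real.arctan (q.2.1 / q.1) + hf q.2.2

/-- The change of the calibrating function along a curve. -/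
theorem Sf_change {c : ℝ → Pt} {a b : ℝ} (hab : a ≤ b) (hc : IsCurve m c a b)
    (hx : ∀ t ∈ Icc a b, 4 / 9 ≤ (c t).1) (hm : ∀ t ∈ Icc a b, 4 / 9 ≤ m (c t).2.2) :
    IntervalIntegrable (fun t => deriv (fun s => Sf (c s)) t) volume a b ∧
    (∫ t in a..b, deriv (fun s => Sf (c s)) t) = Sf (c b) - Sf (c a) ∧
    ∀ᵐ t, t ∈ Icc a b → deriv (fun s => Sf (c s)) t =
      2 / 9 * (((c t).1 * deriv (fun s => (c s).2.1) t -
        (c t).2.1 * deriv (fun s => (c s).1) t) / m (c t).2.2 ^ 2) -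
        kf (c t).2.2 * deriv (fun s => (c s).2.2) t := by
  have hac : AbsolutelyContinuousOnInterval (fun s => Sf (c s)) a b := by
    have h1 := AC.lip inv_lip hc.acx
    have h2 := AC.lip arctan_lip (hc.acy.fun_mul h1)
    have h3 := (h2.const_mul (2 / 9)).fun_add (AC.lip hf_lip hc.acr)
    refine AC.congr h3 fun t ht => ?_
    rw [uIcc_of_le hab] at ht
    unfold Sf
    rw [max_eq_left (hx t ht), mul_one_div]
  refine ⟨hac.intervalIntegrable_deriv, hac.integral_deriv_eq_sub, ?_⟩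
  filter_upwards [ae_props hab hc] with t ht hmem
  obtain ⟨d1, d2, d3, -⟩ := ht hmem
  have hs := (hc.mem t hmem).2.2
  have hx0 := hx t hmem
  have hm0 := hm t hmem
  have hxne : (c t).1 ≠ 0 := by linarith
  have hmne : m (c t).2.2 ≠ 0 := by linarith
  have h1 := ((d2.hasDerivAt.fun_div d1.hasDerivAt hxne).arctan).const_mul (2 / 9)
  have h2 := HasDerivAt.comp (h₂ := hf) t (hf_deriv (c t).2.2) d3.hasDerivAt
  have h3 : HasDerivAt (fun s => Sf (c s)) _ t := h1.add h2
  rw [h3.deriv, ← hs]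
  have hne : (c t).1 ^ 2 + (c t).2.1 ^ 2 ≠ 0 := by rw [hs]; positivity
  have e : 1 + ((c t).2.1 / (c t).1) ^ 2 = ((c t).1 ^ 2 + (c t).2.1 ^ 2) / (c t).1 ^ 2 := by
    field_simp
  rw [e]
  field_simp
  ring

/-- The calibration inequality. -/
theorem calib {x y x' y' r' M k : ℝ} (hM : 4 / 9 ≤ M) (hk : k ^ 2 = 1 - (2 / 9 / M) ^ 2) :
    2 / 9 * ((x * y' - y * x') / M ^ 2) - k * r' ≤
      Real.sqrt (r' ^ 2 + ((x * y' - y * x') / M) ^ 2) := by
  have hM0 : 0 < M := by linarith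
  refine Real.le_sqrt_of_sq_le ?_
  set w := (x * y' - y * x') / M with hw
  have e : 2 / 9 * ((x * y' - y * x') / M ^ 2) = 2 / 9 / M * w := by
    rw [hw]; field_simp
  rw [e]
  set n := 2 / 9 / M
  nlinarith [sq_nonneg (n * r' + k * w)]

/-- Competitors. -/
theorem lower {c : ℝ → Pt} {a b : ℝ} (hab : a ≤ b) (hc : IsCurve m c a b)
    (hx : ∀ t ∈ Icc a b, 4 / 9 ≤ (c t).1) (hm : ∀ t ∈ Icc a b, 4 / 9 ≤ m (c t).2.2) :
    Sf (c b) - Sf (c a) ≤ ∫ t in a..b, speed m c t := by
  obtain ⟨h1, h2, h3⟩ := Sf_change hab hc hx hm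
  rw [← h2, intervalIntegral.integral_of_le hab, intervalIntegral.integral_of_le hab]
  refine setIntegral_mono_ae_restrict ?_ ?_ ?_
  · exact (intervalIntegrable_iff_integrableOn_Ioc_of_le hab).1 h1
  · exact (intervalIntegrable_iff_integrableOn_Ioc_of_le hab).1 (speed_integrable hab hc)
  · filter_upwards [ae_restrict_of_ae h3, ae_restrict_mem measurableSet_Ioc] with t ht hmem
    have hmem' := Ioc_subset_Icc_self hmem
    rw [ht hmem']
    exact calib (hm t hmem') (kf_sq (hm t hmem'))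

/-- Bounds near the equator for curves of length less than `1/5`. -/
theorem near {c : ℝ → Pt} {a b : ℝ} (hab : a ≤ b) (hc : IsCurve m c a b)
    (h0 : c a = polar m (Real.pi / 2) 0) (hL : ∫ t in a..b, speed m c t ≤ 1 / 5) :
    (∀ t ∈ Icc a b, 4 / 9 ≤ (c t).1) ∧ ∀ t ∈ Icc a b, 4 / 9 ≤ m (c t).2.2 := by
  have hr0 : (c a).2.2 = Real.pi / 2 := by rw [h0]; rfl
  have hx0 : (c a).1 = 8 / 9 := by
    rw [h0]
    change m (Real.pi / 2) * Real.cos 0 = 8 / 9
    rw [m_top, Real.cos_zero, mul_one]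
  have hm : ∀ t ∈ Icc a b, 4 / 9 ≤ m (c t).2.2 := by
    intro t ht
    have h1 := radius_bound hab hc ht
    rw [hr0] at h1
    have h2 : |m (c t).2.2 - m (Real.pi / 2)| ≤ 1 * |(c t).2.2 - Real.pi / 2| := by
      have := Convex.norm_image_sub_le_of_norm_hasDerivWithin_le (f := m) (C := 1) (s := univ)
        (x := Real.pi / 2) (y := (c t).2.2) (fun z _ => (m_hasDerivAt z).hasDerivWithinAt)
        (fun z _ => m_deriv_abs_le z) convex_univ (mem_univ _) (mem_univ _)
      simpa using this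
    rw [m_top] at h2
    have h3 := (abs_le.1 h2).1
    linarith
  refine ⟨fun t ht => ?_, hm⟩
  have h1 := x_bound hab hc (fun t ht => by linarith [hm t ht]) ht
  rw [hx0] at h1
  have h2 := (abs_le.1 h1).1
  linarith

end Q195.CutLoc
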