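import Pool.Agent.Q195.CutLoc.Half
import Pool.Agent.Q195.JetCut.AC

/-!
# Curves on the surface: integrability of the speed, gluing, bounds
-/

open MeasureTheory Set Filter

namespace Q195.CutLoc

variable {c : ℝ → Pt} {a b d : ℝ}

/-- Almost everywhere, the coordinates are differentiable and the constraint can be
differentiated. -/
theorem ae_props (hab : a ≤ b) (hc : IsCurve m c a b) : ∀ᵐ t, t ∈ Icc a b →
    DifferentiableAt ℝ (fun s => (c s).1) t ∧ DifferentiableAt ℝ (fun s => (c s).2.1) t ∧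
    DifferentiableAt ℝ (fun s => (c s).2.2) t ∧
    (c t).1 * deriv (fun s => (c s).1) t + (c t).2.1 * deriv (fun s => (c s).2.1) t
      = m (c t).2.2 * (deriv m (c t).2.2 * deriv (fun s => (c s).2.2) t) := by
  have h1 := hc.acx.ae_differentiableAt
  have h2 := hc.acy.ae_differentiableAt
  have h3 := hc.acr.ae_differentiableAt
  have ha : ∀ᵐ t : ℝ, t ≠ a := by simp [ae_iff, measure_singleton]
  have hb : ∀ᵐ t : ℝ, t ≠ b := by simp [ae_iff, measure_singleton]
  filter_upwards [h1, h2, h3, ha, hb] with t k1 k2 k3 k4 k5 ht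
  have ht' : t ∈ uIcc a b := by rwa [uIcc_of_le hab]
  have d1 := k1 ht'
  have d2 := k2 ht'
  have d3 := k3 ht'
  refine ⟨d1, d2, d3, ?_⟩
  have hto : t ∈ Ioo a b := ⟨lt_of_le_of_ne ht.1 (Ne.symm k4), lt_of_le_of_ne ht.2 k5⟩
  have e1 : HasDerivAt (fun s => (c s).1 ^ 2 + (c s).2.1 ^ 2)
      (2 * ((c t).1 * deriv (fun s => (c s).1) t + (c t).2.1 * deriv (fun s => (c s).2.1) t)) t := by
    have := (d1.hasDerivAt.fun_pow 2).fun_add (d2.hasDerivAt.fun_pow 2)
    refine this.congr_deriv ?_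
    push_cast
    ring
  have e2 : HasDerivAt (fun s => m (c s).2.2 ^ 2)
      (2 * (m (c t).2.2 * (deriv m (c t).2.2 * deriv (fun s => (c s).2.2) t))) t := by
    have hm : HasDerivAt m (deriv m (c t).2.2) (c t).2.2 :=
      (m_deriv _).differentiableAt.hasDerivAt
    have := (HasDerivAt.comp (h₂ := m) t hm d3.hasDerivAt).fun_pow 2
    refine this.congr_deriv ?_
    simp only [Function.comp]
    push_cast
    ring
  have e3 : (fun s => (c s).1 ^ 2 + (c s).2.1 ^ 2) =ᶠ[nhds t] fun s => m (c s).2.2 ^ 2 := by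
    filter_upwards [Ioo_mem_nhds hto.1 hto.2] with s hs
    exact (hc.mem s (Ioo_subset_Icc_self hs)).2.2
  have e4 := (e2.congr_of_eventuallyEq e3).unique e1
  linarith

/-- Pointwise inequalities for the speed. -/
theorem speed_bounds {x y x' y' r' M M' : ℝ} (h1 : x ^ 2 + y ^ 2 = M ^ 2)
    (h2 : x * x' + y * y' = M * (M' * r')) (h3 : |M'| ≤ 1) :
    ((x * y' - y * x') / M) ^ 2 ≤ x' ^ 2 + y' ^ 2 ∧
      (M ≠ 0 → x' ^ 2 + y' ^ 2 ≤ r' ^ 2 + ((x * y' - y * x') / M) ^ 2) := by
  have key : (x' ^ 2 + y' ^ 2) * M ^ 2 = (M * (M' * r')) ^ 2 + (x * y' - y * x') ^ 2 := by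
    rw [← h1, ← h2]; ring
  constructor
  · rcases eq_or_ne M 0 with hM | hM
    · rw [hM, div_zero]; nlinarith [sq_nonneg x', sq_nonneg y']
    · rw [div_pow, div_le_iff₀ (by positivity), key]
      nlinarith [sq_nonneg (M * (M' * r'))]
  · intro hM
    have hM2 : 0 < M ^ 2 := by positivity
    have h4 : M' ^ 2 ≤ 1 := by rwa [sq_le_one_iff_abs_le_one]
    have h5 : x' ^ 2 + y' ^ 2 = (M' * r') ^ 2 + ((x * y' - y * x') / M) ^ 2 := by
      rw [div_pow]
      field_simp
      linear_combination key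
    rw [h5, mul_pow]
    nlinarith [sq_nonneg r']

theorem speed_measurable (hab : a ≤ b) (hc : IsCurve m c a b) :
    AEStronglyMeasurable (speed m c) (volume.restrict (Ioc a b)) := by
  have hx : ContinuousOn (fun t => (c t).1) (Ioc a b) :=
    hc.acx.continuousOn.mono (by rw [uIcc_of_le hab]; exact Ioc_subset_Icc_self)
  have hy : ContinuousOn (fun t => (c t).2.1) (Ioc a b) :=
    hc.acy.continuousOn.mono (by rw [uIcc_of_le hab]; exact Ioc_subset_Icc_self)
  have hr : ContinuousOn (fun t => (c t).2.2) (Ioc a b) :=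
    hc.acr.continuousOn.mono (by rw [uIcc_of_le hab]; exact Ioc_subset_Icc_self)
  have hm : Continuous m := continuous_iff_continuousAt.2 fun t => (m_deriv t).continuousAt
  have mx := (hx.aestronglyMeasurable measurableSet_Ioc (μ := volume)).aemeasurable
  have my := (hy.aestronglyMeasurable measurableSet_Ioc (μ := volume)).aemeasurable
  have mr := ((hm.comp_continuousOn hr).aestronglyMeasurable measurableSet_Ioc
    (μ := volume)).aemeasurable
  have dx := (measurable_deriv (fun s => (c s).1)).aemeasurable (μ := volume.restrict (Ioc a b))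
  have dy := (measurable_deriv (fun s => (c s).2.1)).aemeasurable (μ := volume.restrict (Ioc a b))
  have dr := (measurable_deriv (fun s => (c s).2.2)).aemeasurable (μ := volume.restrict (Ioc a b))
  exact (((dr.pow_const 2).add ((((mx.mul dy).sub (my.mul dx)).div mr).pow_const 2)).sqrt).aestronglyMeasurable

theorem speed_integrable (hab : a ≤ b) (hc : IsCurve m c a b) :
    IntervalIntegrable (speed m c) volume a b := by
  have h1 := hc.acx.intervalIntegrable_deriv
  have h2 := hc.acy.intervalIntegrable_deriv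
  have h3 := hc.acr.intervalIntegrable_deriv
  have h4 := (h3.abs.add h1.abs).add h2.abs
  refine h4.mono_fun (by rw [uIoc_of_le hab]; exact speed_measurable hab hc) ?_
  rw [uIoc_of_le hab]
  filter_upwards [ae_restrict_of_ae (ae_props hab hc), ae_restrict_mem measurableSet_Ioc]
    with t ht hm
  obtain ⟨-, -, -, e⟩ := ht (Ioc_subset_Icc_self hm)
  have hs := (hc.mem t (Ioc_subset_Icc_self hm)).2.2
  have hb := (speed_bounds hs e (m_deriv_abs_le _)).1
  unfold speed
  change _ ≤ ‖|deriv (fun s => (c s).2.2) t| + |deriv (fun s => (c s).1) t| +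
    |deriv (fun s => (c s).2.1) t|‖
  set x' := deriv (fun s => (c s).1) t
  set y' := deriv (fun s => (c s).2.1) t
  set r' := deriv (fun s => (c s).2.2) t
  rw [Real.norm_of_nonneg (Real.sqrt_nonneg _), Real.norm_of_nonneg (by positivity),
    Real.sqrt_le_left (by positivity)]
  nlinarith [abs_nonneg x', abs_nonneg y', abs_nonneg r', sq_abs x', sq_abs y', sq_abs r',
    mul_nonneg (abs_nonneg x') (abs_nonneg y'), mul_nonneg (abs_nonneg x') (abs_nonneg r'),
    mul_nonneg (abs_nonneg r') (abs_nonneg y')]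

theorem sub_curve (hc : IsCurve m c a b) {u v : ℝ} (hu : u ∈ Icc a b) (hv : v ∈ Icc a b)
    (huv : u ≤ v) : IsCurve m c u v := by
  have hab : a ≤ b := hu.1.trans hu.2
  have hsub : uIcc u v ⊆ uIcc a b := by
    rw [uIcc_of_le hab, uIcc_of_le huv]; exact Icc_subset_Icc hu.1 hv.2
  exact ⟨hc.acx.mono hsub, hc.acy.mono hsub, hc.acr.mono hsub,
    fun t ht => hc.mem t ⟨hu.1.trans ht.1, ht.2.trans hv.2⟩⟩

theorem part_length (hab : a ≤ b) (hc : IsCurve m c a b) {u : ℝ} (hu : u ∈ Icc a b) :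
    ∫ t in a..u, speed m c t ≤ ∫ t in a..b, speed m c t := by
  have h1 := speed_integrable hu.1 (sub_curve hc ⟨le_rfl, hab⟩ hu hu.1)
  have h2 := speed_integrable hu.2 (sub_curve hc hu ⟨hab, le_rfl⟩ hu.2)
  rw [← intervalIntegral.integral_add_adjacent_intervals h1 h2]
  have : 0 ≤ ∫ t in u..b, speed m c t :=
    intervalIntegral.integral_nonneg hu.2 fun _ _ => Real.sqrt_nonneg _
  linarith

/-- The radius changes by at most the length. -/
theorem radius_bound (hab : a ≤ b) (hc : IsCurve m c a b) {u : ℝ} (hu : u ∈ Icc a b) :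
    |(c u).2.2 - (c a).2.2| ≤ ∫ t in a..b, speed m c t := by
  refine le_trans ?_ (part_length hab hc hu)
  have hcu := sub_curve hc ⟨le_rfl, hab⟩ hu hu.1
  rw [← hcu.acr.integral_deriv_eq_sub]
  refine (intervalIntegral.abs_integral_le_integral_abs hu.1).trans ?_
  refine intervalIntegral.integral_mono_on hu.1 hcu.acr.intervalIntegrable_deriv.abs
    (speed_integrable hu.1 hcu) fun t _ => ?_
  unfold speed
  rw [← Real.sqrt_sq_eq_abs]
  exact Real.sqrt_le_sqrt (by nlinarith [sq_nonneg (((c t).1 * deriv (fun s => (c s).2.1) t -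
    (c t).2.1 * deriv (fun s => (c s).1) t) / m (c t).2.2)])

/-- Away from the poles, `x` changes by at most the length. -/
theorem x_bound (hab : a ≤ b) (hc : IsCurve m c a b) (hm : ∀ t ∈ Icc a b, m (c t).2.2 ≠ 0)
    {u : ℝ} (hu : u ∈ Icc a b) :
    |(c u).1 - (c a).1| ≤ ∫ t in a..b, speed m c t := by
  refine le_trans ?_ (part_length hab hc hu)
  have hcu := sub_curve hc ⟨le_rfl, hab⟩ hu hu.1
  rw [← hcu.acx.integral_deriv_eq_sub]
  refine (intervalIntegral.abs_integral_le_integral_abs hu.1).trans ?_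
  rw [intervalIntegral.integral_of_le hu.1, intervalIntegral.integral_of_le hu.1]
  refine setIntegral_mono_ae_restrict ?_ ?_ ?_
  · exact (intervalIntegrable_iff_integrableOn_Ioc_of_le hu.1).1
      hcu.acx.intervalIntegrable_deriv.abs
  · exact (intervalIntegrable_iff_integrableOn_Ioc_of_le hu.1).1 (speed_integrable hu.1 hcu)
  · filter_upwards [ae_restrict_of_ae (ae_props hu.1 hcu), ae_restrict_mem measurableSet_Ioc]
      with t ht hmem
    have hmem' := Ioc_subset_Icc_self hmem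
    obtain ⟨-, -, -, e⟩ := ht hmem'
    have hs := (hcu.mem t hmem').2.2
    have hb := (speed_bounds hs e (m_deriv_abs_le _)).2 (hm t ⟨hmem'.1, hmem'.2.trans hu.2⟩)
    unfold speed
    rw [← Real.sqrt_sq_eq_abs]
    refine Real.sqrt_le_sqrt ?_
    nlinarith [sq_nonneg (deriv (fun s => (c s).2.1) t)]

/-- Curves of speed one. -/
def UCurve (c : ℝ → Pt) (a b : ℝ) : Prop :=
  IsCurve m c a b ∧ ∀ᵐ t, t ∈ Icc a b → speed m c t = 1

theorem UCurve.length (hab : a ≤ b) (hc : UCurve c a b) : ∫ t in a..b, speed m c t = b - a := by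
  have : ∫ t in a..b, speed m c t = ∫ t in a..b, (1 : ℝ) := by
    refine intervalIntegral.integral_congr_ae ?_
    filter_upwards [hc.2] with t ht hm
    rw [uIoc_of_le hab] at hm
    exact ht (Ioc_subset_Icc_self hm)
  rw [this]
  simp

theorem UCurve.glue {c₁ c₂ : ℝ → Pt} (hab : a ≤ b) (hbd : b ≤ d) (h1 : UCurve c₁ a b)
    (h2 : UCurve c₂ b d) (h12 : c₁ b = c₂ b) :
    UCurve (fun t => if t ≤ b then c₁ t else c₂ t) a d := by
  set e : ℝ → Pt := fun t => if t ≤ b then c₁ t else c₂ t with hcdef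
  have hleft : ∀ t ∈ uIcc a b, c₁ t = e t := by
    intro t ht
    rw [uIcc_of_le hab] at ht
    simp [hcdef, ht.2]
  have hright : ∀ t ∈ uIcc b d, c₂ t = e t := by
    intro t ht
    rw [uIcc_of_le hbd] at ht
    rcases eq_or_lt_of_le ht.1 with h | h
    · subst h; simp [hcdef, h12]
    · simp [hcdef, not_le.2 h]
  have evl : ∀ t, t < b → e =ᶠ[nhds t] c₁ := by
    intro t ht
    filter_upwards [Iio_mem_nhds ht] with s hs
    simp [hcdef, le_of_lt (mem_Iio.1 hs)]
  have evr : ∀ t, b < t → e =ᶠ[nhds t] c₂ := by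
    intro t ht
    filter_upwards [Ioi_mem_nhds ht] with s hs
    simp [hcdef, not_le.2 (mem_Ioi.1 hs)]
  have hsp : ∀ {c' : ℝ → Pt} {t : ℝ}, e =ᶠ[nhds t] c' → speed m e t = speed m c' t := by
    intro c' t h
    unfold speed
    have e1 : deriv (fun s => (e s).1) t = deriv (fun s => (c' s).1) t :=
      Filter.EventuallyEq.deriv_eq (h.fun_comp (fun q : Pt => q.1))
    have e2 : deriv (fun s => (e s).2.1) t = deriv (fun s => (c' s).2.1) t :=
      Filter.EventuallyEq.deriv_eq (h.fun_comp (fun q : Pt => q.2.1))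
    have e3 : deriv (fun s => (e s).2.2) t = deriv (fun s => (c' s).2.2) t :=
      Filter.EventuallyEq.deriv_eq (h.fun_comp (fun q : Pt => q.2.2))
    rw [e1, e2, e3, h.eq_of_nhds]
  have hne : ∀ᵐ t : ℝ, t ≠ b := by
    simp [ae_iff, measure_singleton]
  refine ⟨⟨?_, ?_, ?_, ?_⟩, ?_⟩
  · exact AC.glue hab hbd (AC.congr h1.1.acx fun t ht => by rw [hleft t ht])
      (AC.congr h2.1.acx fun t ht => by rw [hright t ht])
  · exact AC.glue hab hbd (AC.congr h1.1.acy fun t ht => by rw [hleft t ht])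
      (AC.congr h2.1.acy fun t ht => by rw [hright t ht])
  · exact AC.glue hab hbd (AC.congr h1.1.acr fun t ht => by rw [hleft t ht])
      (AC.congr h2.1.acr fun t ht => by rw [hright t ht])
  · intro t ht
    rcases le_total t b with h | h
    · rw [← hleft t (by rw [uIcc_of_le hab]; exact ⟨ht.1, h⟩)]
      exact h1.1.mem t ⟨ht.1, h⟩
    · rw [← hright t (by rw [uIcc_of_le hbd]; exact ⟨h, ht.2⟩)]
      exact h2.1.mem t ⟨h, ht.2⟩
  · filter_upwards [h1.2, h2.2, hne] with t k1 k2 k3 ht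
    rcases lt_or_gt_of_ne k3 with h | h
    · rw [hsp (evl t h)]
      exact k1 ⟨ht.1, h.le⟩
    · rw [hsp (evr t h)]
      exact k2 ⟨h.le, ht.2⟩

theorem bddBelow_lengths (p q : Pt) : BddBelow {L : ℝ | ∃ (a b : ℝ) (c : ℝ → Pt), a ≤ b ∧
    IsCurve m c a b ∧ c a = p ∧ c b = q ∧ L = ∫ t in a..b, speed m c t} := by
  refine ⟨0, ?_⟩
  rintro L ⟨a, b, c, hab, -, -, -, rfl⟩
  exact intervalIntegral.integral_nonneg hab fun _ _ => Real.sqrt_nonneg _

theorem rdist_le {c : ℝ → Pt} (hab : a ≤ b) (hc : UCurve c a b) :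
    rdist m (c a) (c b) ≤ b - a :=
  csInf_le (bddBelow_lengths _ _) ⟨a, b, c, hab, hc.1, rfl, rfl, (hc.length hab).symm⟩

end Q195.CutLoc
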