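import Mathlib

/-!
# Two-spheres of revolution, distance, geodesics, cut locus: definitions

A sphere of revolution with profile `m` is modelled by the surface
`{(x, y, r) : 0 ≤ r ≤ π, x² + y² = m(r)²}`; the point with geodesic polar coordinates `(r, θ)` is
`(m(r) cos θ, m(r) sin θ, r)`. In these coordinates `x y' - y x' = m(r)² θ'`, so that the speed
`√(r'² + m(r)² θ'²)` of a curve is `√(r'² + ((x y' - y x')/m(r))²)`.
-/

open MeasureTheory Set

namespace Q195.CutLoc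

/-- `m` is the profile of a sphere of revolution that is symmetric under reflection in the
equator, with `m' > 0` on `(0, π/2)`. Smooth odd extension at `r = 0` and the symmetry allow us to
take `m` defined on `ℝ`, odd and with `m(π - r) = m(r)`. -/
structure IsProfile (m : ℝ → ℝ) : Prop where
  smooth : ContDiff ℝ (⊤ : ℕ∞) m
  odd : ∀ r, m (-r) = -m r
  symm : ∀ r, m (Real.pi - r) = m r
  pos : ∀ r ∈ Ioo 0 Real.pi, 0 < m r
  deriv_zero : deriv m 0 = 1
  deriv_pos : ∀ r ∈ Ioo 0 (Real.pi / 2), 0 < deriv m r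

/-- The half period function
`φ_m(ν) = 2 ∫ ν / (m(x) √(m(x)² - ν²)) dx`, the integral being over the `x` in `(0, π/2)` with
`m(x) > ν`, that is, from `m⁻¹(ν)` to `π/2`. -/
noncomputable def halfPeriod (m : ℝ → ℝ) (ν : ℝ) : ℝ :=
  2 * ∫ x in {x | x ∈ Ioo 0 (Real.pi / 2) ∧ ν < m x}, ν / (m x * Real.sqrt (m x ^ 2 - ν ^ 2))

/-- A point `(x, y, r)` of `ℝ³`. -/
abbrev Pt : Type := ℝ × ℝ × ℝ

/-- The sphere of revolution. -/
def surface (m : ℝ → ℝ) : Set Pt :=
  {q | 0 ≤ q.2.2 ∧ q.2.2 ≤ Real.pi ∧ q.1 ^ 2 + q.2.1 ^ 2 = m q.2.2 ^ 2}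

/-- The point with polar coordinates `(r, θ)`. -/
noncomputable def polar (m : ℝ → ℝ) (r θ : ℝ) : Pt := (m r * Real.cos θ, m r * Real.sin θ, r)

/-- Absolutely continuous curves on `[a, b]` in the surface. -/
structure IsCurve (m : ℝ → ℝ) (c : ℝ → Pt) (a b : ℝ) : Prop where
  acx : AbsolutelyContinuousOnInterval (fun t => (c t).1) a b
  acy : AbsolutelyContinuousOnInterval (fun t => (c t).2.1) a b
  acr : AbsolutelyContinuousOnInterval (fun t => (c t).2.2) a b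
  mem : ∀ t ∈ Icc a b, c t ∈ surface m

/-- The speed `√(r'² + ((x y' - y x')/m(r))²) = √(r'² + m(r)² θ'²)` of a curve. -/
noncomputable def speed (m : ℝ → ℝ) (c : ℝ → Pt) (t : ℝ) : ℝ :=
  Real.sqrt (deriv (fun s => (c s).2.2) t ^ 2 +
    (((c t).1 * deriv (fun s => (c s).2.1) t - (c t).2.1 * deriv (fun s => (c s).1) t) /
      m (c t).2.2) ^ 2)

/-- The Riemannian distance of the metric `dr² + m(r)² dθ²`. -/
noncomputable def rdist (m : ℝ → ℝ) (p q : Pt) : ℝ :=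
  sInf {L : ℝ | ∃ (a b : ℝ) (c : ℝ → Pt), a ≤ b ∧ IsCurve m c a b ∧ c a = p ∧ c b = q ∧
    L = ∫ t in a..b, speed m c t}

/-- Unit speed geodesics that avoid the poles: `r'' = m(r) m'(r) θ'²`, `m(r)² θ'` is constant. -/
def IsGeodesicOffPoles (m : ℝ → ℝ) (c : ℝ → Pt) : Prop :=
  ∃ r θ r' θ' : ℝ → ℝ, (∀ t, r t ∈ Ioo 0 Real.pi) ∧ (∀ t, HasDerivAt r (r' t) t) ∧
    (∀ t, HasDerivAt θ (θ' t) t) ∧
    (∀ t, HasDerivAt r' (m (r t) * deriv m (r t) * θ' t ^ 2) t) ∧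
    (∀ t, HasDerivAt (fun t => m (r t) ^ 2 * θ' t) 0 t) ∧
    (∀ t, r' t ^ 2 + m (r t) ^ 2 * θ' t ^ 2 = 1) ∧
    ∀ t, c t = polar m (r t) (θ t)

/-- Unit speed geodesics through the poles (meridians). For a profile `m` that is odd with
`m(π - r) = m(r)`, and hence `2π`-periodic, the meridian through the angles `α` and `α + π` is
`ρ ↦ (m(ρ) cos α, m(ρ) sin α, arccos (cos ρ))`. -/
def IsMeridian (m : ℝ → ℝ) (c : ℝ → Pt) : Prop :=
  ∃ α r₀ σ : ℝ, (σ = 1 ∨ σ = -1) ∧ ∀ t, c t = (m (r₀ + σ * t) * Real.cos α,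
    m (r₀ + σ * t) * Real.sin α, Real.arccos (Real.cos (r₀ + σ * t)))

/-- The cut locus of `p`: the cut points `c(τ)` along the unit speed geodesics `c` from `p`, where
`τ` is the supremum of the `t > 0` such that `c` is minimal on `[0, t]`, that is, such that
`c(t)` has distance `t` from `p`. -/
def cutLocus (m : ℝ → ℝ) (p : Pt) : Set Pt :=
  {q | ∃ c : ℝ → Pt, (IsGeodesicOffPoles m c ∨ IsMeridian m c) ∧ c 0 = p ∧
    ∃ τ : ℝ, IsLUB {t : ℝ | 0 < t ∧ rdist m p (c t) = t} τ ∧ q = c τ}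

end Q195.CutLoc
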