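import Pool.Agent.Q195.CutLoc.Prof

/-!
# Geodesics in the parameter `χ`
-/

open MeasureTheory Set Filter

namespace Q195.CutLoc

/-- `s(χ) = 1 - (1 - μ²) sin² χ`. -/
noncomputable def sf (μ χ : ℝ) : ℝ := 1 - (1 - μ ^ 2) * Real.sin χ ^ 2

/-- The angle of `(cos χ, μ sin χ)`. -/
noncomputable def Af (μ χ : ℝ) : ℝ :=
  χ + Real.arctan ((μ - 1) * (Real.sin χ * Real.cos χ) / (Real.cos χ ^ 2 + μ * Real.sin χ ^ 2))

/-- The angle `θ` along the geodesic. -/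
noncomputable def Th (μ χ : ℝ) : ℝ :=
  Af μ χ + μ ^ 3 / 2 * χ + μ * (1 - μ ^ 2) / 4 * Real.sin (2 * χ)

/-- The arclength along the geodesic. -/
noncomputable def T (μ χ : ℝ) : ℝ :=
  8 / 9 * (3 / 2 * χ - 3 / 2 * (1 - μ ^ 2) * (χ / 2 - Real.sin (2 * χ) / 4) +
    (1 - μ ^ 2) ^ 2 * (3 / 8 * χ - Real.sin (2 * χ) / 4 + Real.sin (4 * χ) / 32))

/-- The angle `ψ` along the geodesic. -/
noncomputable def Ps (μ χ : ℝ) : ℝ :=
  Real.pi / 2 - Real.arcsin (Real.sqrt (1 - μ ^ 2) * Real.sin χ)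

theorem sin2_deriv (χ : ℝ) :
    HasDerivAt (fun χ : ℝ => Real.sin (2 * χ)) (2 * Real.cos (2 * χ)) χ := by
  have := ((hasDerivAt_id χ).const_mul 2).sin
  refine this.congr_deriv ?_
  simp; ring

theorem sin4_deriv (χ : ℝ) :
    HasDerivAt (fun χ : ℝ => Real.sin (4 * χ)) (4 * Real.cos (4 * χ)) χ := by
  have := ((hasDerivAt_id χ).const_mul 4).sin
  refine this.congr_deriv ?_
  simp; ring

theorem cos4 (χ : ℝ) : Real.cos (4 * χ) = 8 * Real.sin χ ^ 4 - 8 * Real.sin χ ^ 2 + 1 := by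
  rw [show 4 * χ = 2 * (2 * χ) by ring, Real.cos_two_mul, Real.cos_two_mul, Real.cos_sq']
  ring

theorem cos2 (χ : ℝ) : Real.cos (2 * χ) = 1 - 2 * Real.sin χ ^ 2 := by
  rw [Real.cos_two_mul, Real.cos_sq']
  ring

theorem T_deriv (μ χ : ℝ) : HasDerivAt (T μ) (8 / 9 * g (sf μ χ)) χ := by
  have h2 := sin2_deriv χ
  have h4 := sin4_deriv χ
  have hi := hasDerivAt_id χ
  have h := ((((hi.const_mul (3 / 2)).fun_sub (((hi.div_const 2).fun_sub
    (h2.div_const 4)).const_mul (3 / 2 * (1 - μ ^ 2)))).fun_add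
    ((((hi.const_mul (3 / 8)).fun_sub (h2.div_const 4)).fun_add (h4.div_const 32)).const_mul
      ((1 - μ ^ 2) ^ 2))).const_mul (8 / 9))
  refine h.congr_deriv ?_
  rw [cos4, cos2]
  unfold g sf
  ring

theorem T_smooth (μ : ℝ) : ContDiff ℝ (⊤ : ℕ∞) (T μ) := by
  unfold T
  fun_prop

section
variable {μ : ℝ} (h0 : 0 < μ) (h1 : μ < 1)
include h0 h1

theorem a_pos : 0 < 1 - μ ^ 2 := by nlinarith

theorem sf_ge (χ : ℝ) : μ ^ 2 ≤ sf μ χ := by
  have := a_pos h0 h1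
  have h2 := Real.sin_sq_le_one χ
  unfold sf
  nlinarith

theorem sf_pos (χ : ℝ) : 0 < sf μ χ := lt_of_lt_of_le (by positivity) (sf_ge h0 h1 χ)

theorem sf_le (χ : ℝ) : sf μ χ ≤ 1 := by
  have := a_pos h0 h1
  unfold sf
  nlinarith [sq_nonneg (Real.sin χ)]

theorem Af_deriv (χ : ℝ) : HasDerivAt (Af μ) (μ / sf μ χ) χ := by
  have hs := sf_pos h0 h1 χ
  have hden : 0 < Real.cos χ ^ 2 + μ * Real.sin χ ^ 2 := by
    have := Real.sin_sq_add_cos_sq χ
    nlinarith [sq_nonneg (Real.sin χ), sq_nonneg (Real.cos χ)]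
  have hsc : HasDerivAt (fun χ => Real.sin χ * Real.cos χ)
      (Real.cos χ * Real.cos χ + Real.sin χ * -Real.sin χ) χ :=
    (Real.hasDerivAt_sin χ).mul (Real.hasDerivAt_cos χ)
  have hD : HasDerivAt (fun χ => Real.cos χ ^ 2 + μ * Real.sin χ ^ 2)
      (2 * (μ - 1) * (Real.sin χ * Real.cos χ)) χ := by
    have := ((Real.hasDerivAt_cos χ).fun_pow 2).fun_add
      (((Real.hasDerivAt_sin χ).fun_pow 2).const_mul μ)
    refine this.congr_deriv ?_
    push_cast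
    ring
  have hq := ((hsc.const_mul (μ - 1)).fun_div hD hden.ne').arctan
  have h := (hasDerivAt_id χ).fun_add hq
  refine h.congr_deriv ?_
  have e : sf μ χ = Real.cos χ ^ 2 + μ ^ 2 * Real.sin χ ^ 2 := by
    unfold sf
    linear_combination -Real.sin_sq_add_cos_sq χ
  have e2 : (Real.cos χ ^ 2 + μ * Real.sin χ ^ 2) ^ 2 +
      ((μ - 1) * (Real.sin χ * Real.cos χ)) ^ 2 = sf μ χ := by
    rw [e]
    linear_combination (Real.cos χ ^ 2 + μ ^ 2 * Real.sin χ ^ 2) * Real.sin_sq_add_cos_sq χ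
  set S := Real.sin χ
  set Cc := Real.cos χ
  set Dn := Cc ^ 2 + μ * S ^ 2 with hDn
  have hsc1 : S ^ 2 + Cc ^ 2 = 1 := Real.sin_sq_add_cos_sq χ
  have e3 : 1 + ((μ - 1) * (S * Cc) / Dn) ^ 2 = sf μ χ / Dn ^ 2 := by
    rw [← e2]
    field_simp
  rw [e3]
  have e4 : 1 / (sf μ χ / Dn ^ 2) * (((μ - 1) * (Cc * Cc + S * -S)) * Dn -
      (μ - 1) * (S * Cc) * (2 * (μ - 1) * (S * Cc))) / Dn ^ 2 =
      (((μ - 1) * (Cc * Cc + S * -S)) * Dn -
      (μ - 1) * (S * Cc) * (2 * (μ - 1) * (S * Cc))) / sf μ χ := by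
    field_simp
  rw [mul_div_assoc] at e4
  rw [e4, eq_div_iff hs.ne', add_mul, div_mul_cancel₀ _ hs.ne', one_mul, e, hDn]
  linear_combination (μ * (μ - 1) * (-S ^ 2) + (μ - 1) * Cc ^ 2 + μ) * hsc1
  

theorem Th_deriv (χ : ℝ) : HasDerivAt (Th μ) (μ * (1 / sf μ χ - 1 / 2 + sf μ χ)) χ := by
  have hs := sf_pos h0 h1 χ
  have h := ((Af_deriv h0 h1 χ).fun_add ((hasDerivAt_id χ).const_mul (μ ^ 3 / 2))).fun_add
    ((sin2_deriv χ).const_mul (μ * (1 - μ ^ 2) / 4))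
  refine h.congr_deriv ?_
  rw [cos2]
  have e : μ / sf μ χ = μ * (1 / sf μ χ) := by ring
  rw [e]
  have e2 : sf μ χ = 1 - (1 - μ ^ 2) * Real.sin χ ^ 2 := rfl
  linear_combination (-μ) * e2

theorem abs_lt_one (χ : ℝ) : |Real.sqrt (1 - μ ^ 2) * Real.sin χ| < 1 := by
  have ha := a_pos h0 h1
  have hs := sf_pos h0 h1 χ
  rw [← sq_lt_one_iff_abs_lt_one, mul_pow, Real.sq_sqrt ha.le]
  unfold sf at hs
  linarith

theorem sin_Ps (χ : ℝ) : Real.sin (Ps μ χ) = Real.sqrt (sf μ χ) := by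
  have ha := a_pos h0 h1
  unfold Ps
  rw [Real.sin_pi_div_two_sub, Real.cos_arcsin, mul_pow, Real.sq_sqrt ha.le]
  rfl

theorem cos_Ps (χ : ℝ) : Real.cos (Ps μ χ) = Real.sqrt (1 - μ ^ 2) * Real.sin χ := by
  have h := abs_lt.1 (abs_lt_one h0 h1 χ)
  unfold Ps
  rw [Real.cos_pi_div_two_sub, Real.sin_arcsin h.1.le h.2.le]

theorem Ps_deriv (χ : ℝ) : HasDerivAt (Ps μ)
    (-(Real.sqrt (1 - μ ^ 2) * Real.cos χ / Real.sqrt (sf μ χ))) χ := by
  have ha := a_pos h0 h1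
  have h := abs_lt.1 (abs_lt_one h0 h1 χ)
  have h2 := ((Real.hasDerivAt_arcsin h.1.ne' h.2.ne).comp χ
    ((Real.hasDerivAt_sin χ).const_mul (Real.sqrt (1 - μ ^ 2)))).const_sub (Real.pi / 2)
  refine h2.congr_deriv ?_
  rw [mul_pow, Real.sq_sqrt ha.le]
  change -(1 / Real.sqrt (sf μ χ) * (Real.sqrt (1 - μ ^ 2) * Real.cos χ)) = _
  ring

theorem Ps_mem (χ : ℝ) : Ps μ χ ∈ Ioo 0 Real.pi := by
  have h := abs_lt.1 (abs_lt_one h0 h1 χ)
  have h2 := Real.arcsin_lt_pi_div_two.2 h.2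
  have h3 := Real.neg_pi_div_two_lt_arcsin.2 h.1
  unfold Ps
  constructor <;> linarith

/-- The radius along the geodesic. -/
theorem rho_deriv (χ : ℝ) : HasDerivAt (fun χ => R (Ps μ χ))
    (8 / 9 * g (sf μ χ) * (-(Real.sqrt (1 - μ ^ 2) * Real.cos χ / Real.sqrt (sf μ χ)))) χ := by
  have h := (R_deriv (Ps μ χ)).comp χ (Ps_deriv h0 h1 χ)
  rw [sin_Ps h0 h1, Real.sq_sqrt (sf_pos h0 h1 χ).le] at h
  exact h

/-- The inverse of the arclength. -/
theorem exists_X : ∃ X : ℝ → ℝ, (∀ x, X (T μ x) = x) ∧ (∀ y, T μ (X y) = y) ∧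
      (∀ y, HasDerivAt X (1 / (8 / 9 * g (sf μ (X y)))) y) ∧ StrictMono X := by
  obtain ⟨h, a1, a2, a3, -, a5⟩ := exists_inverse (k := 1 / 2) (by norm_num) (T_deriv μ)
    (fun x => by linarith [g_ge (sf μ x)]) (T_smooth μ)
  exact ⟨h, a1, a2, a3, a5⟩

/-- The geodesic is a unit speed geodesic. -/
theorem isGeodesic {X : ℝ → ℝ} (hX : ∀ y, HasDerivAt X (1 / (8 / 9 * g (sf μ (X y)))) y) :
    IsGeodesicOffPoles m (fun t => polar m (R (Ps μ (X t))) (Th μ (X t))) := by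
  have ha := a_pos h0 h1
  have hsa := Real.sqrt_pos.2 ha
  have hsa2 := Real.sq_sqrt ha.le
  have hmR : ∀ χ, m (R (Ps μ χ)) = 8 / 9 * Real.sqrt (sf μ χ) := fun χ => by
    rw [m_R, sin_Ps h0 h1]
  have hdm : ∀ χ, deriv m (R (Ps μ χ)) = Real.sqrt (1 - μ ^ 2) * Real.sin χ / g (sf μ χ) := by
    intro χ
    rw [(m_deriv _).deriv, psi_spec.1, cos_Ps h0 h1, sin_Ps h0 h1,
      Real.sq_sqrt (sf_pos h0 h1 χ).le]
  refine ⟨fun t => R (Ps μ (X t)), fun t => Th μ (X t),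
    fun t => -(Real.sqrt (1 - μ ^ 2) * Real.cos (X t) / Real.sqrt (sf μ (X t))),
    fun t => μ / (8 / 9 * sf μ (X t)), fun t => ?_, fun t => ?_, fun t => ?_, fun t => ?_,
    fun t => ?_, fun t => ?_, fun t => rfl⟩
  · have h := Ps_mem h0 h1 (X t)
    have e1 := R_mono h.1
    have e2 := R_mono h.2
    rw [R_zero] at e1
    rw [R_pi] at e2
    exact ⟨e1, e2⟩
  · have h := (rho_deriv h0 h1 (X t)).comp t (hX t)
    refine h.congr_deriv ?_
    have hg := g_pos (sf μ (X t))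
    field_simp
  · have h := (Th_deriv h0 h1 (X t)).comp t (hX t)
    refine h.congr_deriv ?_
    have hg := g_pos (sf μ (X t))
    have hs := sf_pos h0 h1 (X t)
    have e : 1 / sf μ (X t) - 1 / 2 + sf μ (X t) = g (sf μ (X t)) / sf μ (X t) := by
      unfold g
      field_simp
    rw [e]
    field_simp
  · -- the second derivative of the radius
    have hs := sf_pos h0 h1 (X t)
    have hss := Real.sqrt_pos.2 hs
    have hss2 := Real.sq_sqrt hs.le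
    have hg := g_pos (sf μ (X t))
    have hsf : HasDerivAt (sf μ) (-(2 * (1 - μ ^ 2) * (Real.sin (X t) * Real.cos (X t))))
        (X t) := by
      have := (((Real.hasDerivAt_sin (X t)).fun_pow 2).const_mul (1 - μ ^ 2)).const_sub 1
      refine this.congr_deriv ?_
      push_cast
      ring
    have hq : HasDerivAt (fun χ => -(Real.sqrt (1 - μ ^ 2) * Real.cos χ / Real.sqrt (sf μ χ)))
        (Real.sqrt (1 - μ ^ 2) * Real.sin (X t) * μ ^ 2 /
          (sf μ (X t) * Real.sqrt (sf μ (X t)))) (X t) := by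
      have h := (((Real.hasDerivAt_cos (X t)).const_mul (Real.sqrt (1 - μ ^ 2))).fun_div
        (hsf.sqrt hs.ne') hss.ne').fun_neg
      refine h.congr_deriv ?_
      rw [hss2]
      set q := Real.sqrt (sf μ (X t)) with hqd
      set A := Real.sqrt (1 - μ ^ 2)
      have e1 : sf μ (X t) = q ^ 2 := hss2.symm
      have e2 : q ^ 2 = 1 - (1 - μ ^ 2) * Real.sin (X t) ^ 2 := hss2
      have e3 := Real.sin_sq_add_cos_sq (X t)
      rw [e1]
      field_simp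
      have e4 : q ^ 2 - (1 - μ ^ 2) * Real.cos (X t) ^ 2 = μ ^ 2 := by
        linear_combination e2 - (1 - μ ^ 2) * e3
      linear_combination (Real.sin (X t)) * e4
    have h := hq.comp t (hX t)
    refine h.congr_deriv ?_
    rw [hmR, hdm]
    set q := Real.sqrt (sf μ (X t)) with hqd
    have e1 : sf μ (X t) = q ^ 2 := hss2.symm
    have e5 : g (sf μ (X t)) = g (q ^ 2) := by rw [← e1]
    have hg' : 0 < g (q ^ 2) := by rw [← e1]; exact hg
    rw [e5, e1]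
    field_simp
    try rw [e1]
    ring
  · have e : (fun t => m (R (Ps μ (X t))) ^ 2 * (μ / (8 / 9 * sf μ (X t))))
        = fun _ => 8 / 9 * μ := by
      funext t
      rw [hmR, mul_pow, Real.sq_sqrt (sf_pos h0 h1 (X t)).le]
      have hs := sf_pos h0 h1 (X t)
      field_simp
    rw [e]
    exact hasDerivAt_const _ _
  · have hs := sf_pos h0 h1 (X t)
    change (-(Real.sqrt (1 - μ ^ 2) * Real.cos (X t) / Real.sqrt (sf μ (X t)))) ^ 2 +
      m (R (Ps μ (X t))) ^ 2 * (μ / (8 / 9 * sf μ (X t))) ^ 2 = 1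
    rw [hmR, mul_pow, Real.sq_sqrt hs.le, neg_sq, div_pow, mul_pow, Real.sq_sqrt hs.le, hsa2]
    have e3 := Real.sin_sq_add_cos_sq (X t)
    have e2 : sf μ (X t) = 1 - (1 - μ ^ 2) * Real.sin (X t) ^ 2 := rfl
    field_simp
    linear_combination (1 - μ ^ 2) * e3 - e2
end

end Q195.CutLoc
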