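import Pool.Agent.Q195.CutLoc.Geod

/-!
# The half period function of the profile
-/

open MeasureTheory Set Filter

namespace Q195.CutLoc

section
variable {μ : ℝ} (h0 : 0 < μ) (h1 : μ < 1)
include h0 h1

theorem Th_zero : Th μ 0 = 0 := by simp [Th, Af]

theorem Th_pi_div_two : Th μ (Real.pi / 2) = Real.pi / 2 + μ ^ 3 / 2 * (Real.pi / 2) := by
  have : Real.sin (2 * (Real.pi / 2)) = 0 := by
    rw [show 2 * (Real.pi / 2) = Real.pi by ring, Real.sin_pi]
  simp [Th, Af, this]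

theorem Th_pi : Th μ Real.pi = Real.pi + μ ^ 3 / 2 * Real.pi := by
  simp [Th, Af]

theorem sf_continuous : Continuous (sf μ) := by
  unfold sf
  fun_prop

theorem Th'_continuous : Continuous (fun χ => μ * (1 / sf μ χ - 1 / 2 + sf μ χ)) := by
  have hc := sf_continuous h0 h1
  have h2 : Continuous (fun χ => 1 / sf μ χ) :=
    continuous_const.div hc fun χ => (sf_pos h0 h1 χ).ne'
  exact continuous_const.mul ((h2.sub continuous_const).add hc)

theorem Th_integral (a b : ℝ) :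
    ∫ χ in a..b, μ * (1 / sf μ χ - 1 / 2 + sf μ χ) = Th μ b - Th μ a :=
  intervalIntegral.integral_eq_sub_of_hasDerivAt (fun χ _ => Th_deriv h0 h1 χ)
    ((Th'_continuous h0 h1).intervalIntegrable _ _)

theorem image_eq : (fun χ => R (Ps μ χ)) '' Ioo 0 (Real.pi / 2)
    = {x | x ∈ Ioo 0 (Real.pi / 2) ∧ 8 / 9 * μ < m x} := by
  have ha := a_pos h0 h1
  have hsa := Real.sqrt_pos.2 ha
  have hsa2 := Real.sq_sqrt ha.le
  have hpi := Real.pi_pos
  ext x
  constructor
  · rintro ⟨χ, hχ, rfl⟩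
    have hs := Real.sin_pos_of_pos_of_lt_pi hχ.1 (by linarith [hχ.2])
    have hc := Real.cos_pos_of_mem_Ioo ⟨by linarith [hχ.1], hχ.2⟩
    have hmem := Ps_mem h0 h1 χ
    have hlt : Ps μ χ < Real.pi / 2 := by
      unfold Ps
      have := Real.arcsin_pos.2 (mul_pos hsa hs)
      linarith
    refine ⟨⟨?_, ?_⟩, ?_⟩
    · have := R_mono hmem.1
      rwa [R_zero] at this
    · have := R_mono hlt
      rwa [R_pi_div_two] at this
    · change 8 / 9 * μ < m (R (Ps μ χ))
      rw [m_R, sin_Ps h0 h1]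
      have : μ < Real.sqrt (sf μ χ) := by
        rw [Real.lt_sqrt h0.le]
        have e3 := Real.sin_sq_add_cos_sq χ
        unfold sf
        nlinarith [mul_pos ha (pow_pos hc 2)]
      linarith
  · rintro ⟨hx, hm⟩
    have hp := psi_mem' hx
    set p := psi x with hpd
    have hcp := Real.cos_pos_of_mem_Ioo ⟨by linarith [hp.1], hp.2⟩
    have hsp : μ < Real.sin p := by
      unfold m at hm
      rw [← hpd] at hm
      linarith
    have hlt : Real.cos p < Real.sqrt (1 - μ ^ 2) := by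
      rw [Real.lt_sqrt hcp.le, Real.cos_sq']
      nlinarith
    have hq0 : 0 < Real.cos p / Real.sqrt (1 - μ ^ 2) := by positivity
    have hq1 : Real.cos p / Real.sqrt (1 - μ ^ 2) < 1 := (div_lt_one hsa).2 hlt
    refine ⟨Real.arcsin (Real.cos p / Real.sqrt (1 - μ ^ 2)), ⟨Real.arcsin_pos.2 hq0,
      Real.arcsin_lt_pi_div_two.2 hq1⟩, ?_⟩
    change R (Ps μ _) = x
    unfold Ps
    rw [Real.sin_arcsin (by linarith) hq1.le, mul_div_cancel₀ _ hsa.ne']
    have e : Real.arcsin (Real.cos p) = Real.pi / 2 - p := by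
      rw [← Real.sin_pi_div_two_sub, Real.arcsin_sin] <;> linarith [hp.1, hp.2]
    rw [e, show Real.pi / 2 - (Real.pi / 2 - p) = p by ring, hpd, psi_spec.2.1]

theorem injOn : InjOn (fun χ => R (Ps μ χ)) (Ioo 0 (Real.pi / 2)) := by
  have ha := a_pos h0 h1
  have hsa := Real.sqrt_pos.2 ha
  intro χ hχ χ' hχ' h
  have h2 : Ps μ χ = Ps μ χ' := R_mono.injective h
  have h3 := congrArg Real.cos h2
  rw [cos_Ps h0 h1, cos_Ps h0 h1] at h3
  have h4 := mul_left_cancel₀ hsa.ne' h3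
  exact Real.injOn_sin ⟨by linarith [hχ.1, Real.pi_pos], hχ.2.le⟩
    ⟨by linarith [hχ'.1, Real.pi_pos], hχ'.2.le⟩ h4

/-- The half period function. -/
theorem halfPeriod_eq : halfPeriod m (8 / 9 * μ) = Real.pi + μ ^ 3 / 2 * Real.pi := by
  have ha := a_pos h0 h1
  have hsa := Real.sqrt_pos.2 ha
  have hsa2 := Real.sq_sqrt ha.le
  have hpi := Real.pi_pos
  unfold halfPeriod
  rw [← image_eq h0 h1, integral_image_eq_integral_abs_deriv_smul measurableSet_Ioo
    (fun χ _ => (rho_deriv h0 h1 χ).hasDerivWithinAt) (injOn h0 h1)]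
  have key : ∀ χ ∈ Ioo 0 (Real.pi / 2),
      |8 / 9 * g (sf μ χ) * (-(Real.sqrt (1 - μ ^ 2) * Real.cos χ / Real.sqrt (sf μ χ)))| •
        (8 / 9 * μ / (m (R (Ps μ χ)) * Real.sqrt (m (R (Ps μ χ)) ^ 2 - (8 / 9 * μ) ^ 2)))
      = μ * (1 / sf μ χ - 1 / 2 + sf μ χ) := by
    intro χ hχ
    have hc := Real.cos_pos_of_mem_Ioo ⟨by linarith [hχ.1], hχ.2⟩
    have hs := sf_pos h0 h1 χ
    have hss := Real.sqrt_pos.2 hs
    have hss2 := Real.sq_sqrt hs.le
    have hg := g_pos (sf μ χ)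
    have e1 : m (R (Ps μ χ)) = 8 / 9 * Real.sqrt (sf μ χ) := by rw [m_R, sin_Ps h0 h1]
    have e2 : m (R (Ps μ χ)) ^ 2 - (8 / 9 * μ) ^ 2
        = (8 / 9 * (Real.sqrt (1 - μ ^ 2) * Real.cos χ)) ^ 2 := by
      rw [e1, mul_pow, hss2, mul_pow (8 / 9) (Real.sqrt (1 - μ ^ 2) * Real.cos χ),
        mul_pow (Real.sqrt (1 - μ ^ 2)), hsa2]
      have e3 := Real.sin_sq_add_cos_sq χ
      unfold sf
      linear_combination (-(64 / 81 * (1 - μ ^ 2))) * e3
    rw [e2, Real.sqrt_sq (by positivity), e1, mul_neg, abs_neg, abs_of_pos (by positivity),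
      smul_eq_mul]
    have e : 1 / sf μ χ - 1 / 2 + sf μ χ = g (sf μ χ) / sf μ χ := by
      unfold g
      field_simp
    rw [e]
    have e5 : g (sf μ χ) / sf μ χ = g (sf μ χ) / (Real.sqrt (sf μ χ)) ^ 2 := by rw [hss2]
    rw [e5]
    field_simp
  rw [setIntegral_congr_fun measurableSet_Ioo key, ← integral_Ioc_eq_integral_Ioo,
    ← intervalIntegral.integral_of_le (by linarith), Th_integral h0 h1, Th_zero h0 h1,
    Th_pi_div_two h0 h1]
  ring
end

/-- The end point has angle less than `π`. -/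
theorem Th_end : Th (1 / 4) (Real.pi - 2 / 25) < Real.pi := by
  have h0 : (0 : ℝ) < 1 / 4 := by norm_num
  have h1 : (1 / 4 : ℝ) < 1 := by norm_num
  have h2 := Th_integral h0 h1 (Real.pi - 2 / 25) Real.pi
  have h3 : ∫ χ in (Real.pi - 2 / 25)..Real.pi, (3 / 8 : ℝ) ≤
      ∫ χ in (Real.pi - 2 / 25)..Real.pi, 1 / 4 * (1 / sf (1 / 4) χ - 1 / 2 + sf (1 / 4) χ) := by
    refine intervalIntegral.integral_mono_on (by linarith) (by simp)
      ((Th'_continuous h0 h1).intervalIntegrable _ _) fun χ _ => ?_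
    have hs := sf_pos h0 h1 χ
    have : 2 ≤ 1 / sf (1 / 4) χ + sf (1 / 4) χ := by
      rw [div_add' _ _ _ hs.ne', le_div_iff₀ hs]
      nlinarith [sq_nonneg (sf (1 / 4) χ - 1)]
    linarith
  rw [intervalIntegral.integral_const, h2, Th_pi h0 h1] at h3
  have hpi := Real.pi_lt_d2
  rw [smul_eq_mul] at h3
  norm_num at h3 ⊢
  linarith

/-- The geodesic to the end point is longer than the path through the pole. -/
theorem T_end : Real.pi / 2 + R (Ps (1 / 4) (Real.pi - 2 / 25)) < T (1 / 4) (Real.pi - 2 / 25) := by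
  have h0 : (0 : ℝ) < 1 / 4 := by norm_num
  have h1 : (1 / 4 : ℝ) < 1 := by norm_num
  have ha := a_pos h0 h1
  have hsa := Real.sqrt_pos.2 ha
  have hsa2 := Real.sq_sqrt ha.le
  set D : ℝ → ℝ := fun χ => T (1 / 4) χ - R (Ps (1 / 4) χ) with hD
  have hDd : ∀ χ, HasDerivAt D (8 / 9 * g (sf (1 / 4) χ) - 8 / 9 * g (sf (1 / 4) χ) *
      (-(Real.sqrt (1 - (1 / 4) ^ 2) * Real.cos χ / Real.sqrt (sf (1 / 4) χ)))) χ := fun χ =>
    (T_deriv _ χ).sub (rho_deriv h0 h1 χ)
  have hbound : ∀ χ ∈ Icc (Real.pi - 2 / 25) Real.pi, 8 / 9 * g (sf (1 / 4) χ) -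
      8 / 9 * g (sf (1 / 4) χ) *
      (-(Real.sqrt (1 - (1 / 4) ^ 2) * Real.cos χ / Real.sqrt (sf (1 / 4) χ))) ≤ 48 / 1000 := by
    intro χ hχ
    have hs := sf_pos h0 h1 χ
    have hss := Real.sqrt_pos.2 hs
    have hss2 := Real.sq_sqrt hs.le
    have hg := g_pos (sf (1 / 4) χ)
    have hg2 := g_le hs.le (sf_le h0 h1 χ)
    have hsin : Real.sin χ ≤ 2 / 25 := by
      rw [← Real.sin_pi_sub]
      have h3 : 0 ≤ Real.pi - χ := by linarith [hχ.2]
      have := Real.sin_le h3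
      linarith [hχ.1]
    have hsin0 : 0 ≤ Real.sin χ :=
      Real.sin_nonneg_of_nonneg_of_le_pi (by linarith [hχ.1, Real.pi_gt_three]) hχ.2
    have hcos : Real.cos χ < 0 := by
      have := Real.cos_neg_of_pi_div_two_lt_of_lt (x := χ) (by linarith [hχ.1, Real.pi_gt_three])
        (by linarith [hχ.2, Real.pi_pos])
      exact this
    have hs1 : 9 / 10 ≤ sf (1 / 4) χ := by
      unfold sf
      nlinarith
    have hq : 241 / 250 ≤ -(Real.sqrt (1 - (1 / 4) ^ 2) * Real.cos χ /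
        Real.sqrt (sf (1 / 4) χ)) := by
      rw [← neg_div, le_div_iff₀ hss]
      refine le_of_sq_le_sq ?_ ?_
      · rw [mul_pow, hss2, neg_sq, mul_pow, hsa2]
        have e3 := Real.sin_sq_add_cos_sq χ
        unfold sf at hs1 ⊢
        nlinarith
      · rw [← mul_neg]
        have : 0 < -Real.cos χ := by linarith
        positivity
    nlinarith
  have hpi := Real.pi_gt_d2
  have hmono : D Real.pi - D (Real.pi - 2 / 25) ≤ 48 / 1000 * (2 / 25) := by
    have hle : ∀ χ, DifferentiableAt ℝ D χ := fun χ => (hDd χ).differentiableAt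
    have := Convex.image_sub_le_mul_sub_of_deriv_le (D := Icc (Real.pi - 2 / 25) Real.pi)
      (convex_Icc _ _) (f := D) (fun χ _ => (hle χ).continuousAt.continuousWithinAt)
      (fun χ _ => (hle χ).differentiableWithinAt) (C := 48 / 1000)
      (fun χ hχ => by
        rw [(hDd χ).deriv]
        exact hbound χ (interior_subset hχ))
      (Real.pi - 2 / 25) ⟨le_rfl, by linarith⟩ Real.pi ⟨by linarith, le_rfl⟩ (by linarith)
    linarith
  have hTpi : T (1 / 4) Real.pi = 769 / 768 * Real.pi := by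
    unfold T
    have e2 : Real.sin (2 * Real.pi) = 0 := Real.sin_two_pi
    have e4 : Real.sin (4 * Real.pi) = 0 := by
      rw [show 4 * Real.pi = 2 * Real.pi + 2 * Real.pi by ring, Real.sin_add_two_pi,
        Real.sin_two_pi]
    rw [e2, e4]
    ring
  have hPpi : R (Ps (1 / 4) Real.pi) = Real.pi / 2 := by
    have : Ps (1 / 4) Real.pi = Real.pi / 2 := by simp [Ps]
    rw [this, R_pi_div_two]
  simp only [hD] at hmono
  rw [hTpi, hPpi] at hmono
  linarith

theorem m_top : m (Real.pi / 2) = 8 / 9 := by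
  unfold m
  rw [psi_pi_div_two, Real.sin_pi_div_two, mul_one]

theorem halfPeriod_mono : MonotoneOn (halfPeriod m) (Ioo 0 (m (Real.pi / 2))) := by
  rw [m_top]
  intro ν hν ν' hν' h
  have key : ∀ ν ∈ Ioo (0 : ℝ) (8 / 9),
      halfPeriod m ν = Real.pi + (9 / 8 * ν) ^ 3 / 2 * Real.pi := by
    intro ν hν
    have := halfPeriod_eq (μ := 9 / 8 * ν) (by linarith [hν.1]) (by linarith [hν.2])
    rwa [show 8 / 9 * (9 / 8 * ν) = ν by ring] at this
  rw [key ν hν, key ν' hν']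
  have hpi := Real.pi_pos
  have h3 : (9 / 8 * ν) ^ 3 ≤ (9 / 8 * ν') ^ 3 :=
    pow_le_pow_left₀ (by linarith [hν.1]) (by linarith) 3
  nlinarith

end Q195.CutLoc
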