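import Pool.Agent.Q195.CutLoc.Calib

/-!
# The cut locus of a point of the equator is not contained in the opposite meridian
-/

open MeasureTheory Set Filter

namespace Q195.CutLoc

/-- `x y' - y x' = m(r)² θ'`. -/
theorem angular {r θ r' θ' : ℝ → ℝ} (hr : ∀ t, HasDerivAt r (r' t) t)
    (hθ : ∀ t, HasDerivAt θ (θ' t) t) (t : ℝ) :
    (polar m (r t) (θ t)).1 * deriv (fun s => (polar m (r s) (θ s)).2.1) t -
      (polar m (r t) (θ t)).2.1 * deriv (fun s => (polar m (r s) (θ s)).1) t =
      m (r t) ^ 2 * θ' t := by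
  have hM : ∀ t, HasDerivAt (fun t => m (r t)) (deriv m (r t) * r' t) t := fun t =>
    HasDerivAt.comp (h₂ := m) t (m_hasDerivAt (r t)) (hr t)
  have hx : HasDerivAt (fun t => m (r t) * Real.cos (θ t))
      (deriv m (r t) * r' t * Real.cos (θ t) + m (r t) * (-Real.sin (θ t) * θ' t)) t :=
    (hM t).mul (hθ t).cos
  have hy : HasDerivAt (fun t => m (r t) * Real.sin (θ t))
      (deriv m (r t) * r' t * Real.sin (θ t) + m (r t) * (Real.cos (θ t) * θ' t)) t :=
    (hM t).mul (hθ t).sin
  change m (r t) * Real.cos (θ t) * deriv (fun s => m (r s) * Real.sin (θ s)) t -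
    m (r t) * Real.sin (θ t) * deriv (fun s => m (r s) * Real.cos (θ s)) t = _
  rw [hx.deriv, hy.deriv]
  linear_combination (m (r t) ^ 2 * θ' t) * Real.sin_sq_add_cos_sq (θ t)

theorem main : ∃ r₀ ∈ Ioo 0 Real.pi,
    ¬ (cutLocus m (polar m r₀ 0) ⊆ {q | ∃ r ∈ Ioo 0 Real.pi, q = polar m r Real.pi}) := by
  have h0 : (0 : ℝ) < 1 / 4 := by norm_num
  have h1 : (1 / 4 : ℝ) < 1 := by norm_num
  have hpi := Real.pi_gt_three
  have hpi4 := Real.pi_lt_four
  obtain ⟨X, X1, X2, X3, Xm⟩ := exists_X h0 h1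
  set γ : ℝ → Pt := fun t => polar m (R (Ps (1 / 4) (X t))) (Th (1 / 4) (X t)) with hγ
  have hT0 : T (1 / 4) 0 = 0 := by simp [T]
  have hX0 : X 0 = 0 := by
    have := X1 0
    rwa [hT0] at this
  have hγ0 : γ 0 = polar m (Real.pi / 2) 0 := by
    simp only [hγ]
    rw [hX0, Th_zero h0 h1]
    congr 1
    have : Ps (1 / 4) 0 = Real.pi / 2 := by simp [Ps]
    rw [this, R_pi_div_two]
  have hU : ∀ a b, UCurve γ a b := g_ucurve h0 h1 X3
  set p : Pt := polar m (Real.pi / 2) 0 with hp
  -- the end point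
  set χ₁ : ℝ := Real.pi - 2 / 25 with hχ₁
  set T₁ : ℝ := T (1 / 4) χ₁ with hT₁
  set r₁ : ℝ := R (Ps (1 / 4) χ₁) with hr₁
  have hr₁mem : r₁ ∈ Ioo 0 Real.pi := by
    have h := Ps_mem h0 h1 χ₁
    have e1 := R_mono h.1
    have e2 := R_mono h.2
    rw [R_zero] at e1
    rw [R_pi] at e2
    exact ⟨e1, e2⟩
  have hXT : X T₁ = χ₁ := X1 χ₁
  -- beyond the end point
  have hbeyond : ∀ t, T₁ ≤ t → rdist m p (γ t) < t := by
    intro t ht
    set s₀ : ℝ := T₁ - r₁ with hs₀
    set a : ℝ := s₀ - Real.pi / 2 with ha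
    have u1 : UCurve (fun t => (m ((-1) * (t - s₀)) * 1, m ((-1) * (t - s₀)) * 0,
        (-1) * (t - s₀))) a s₀ := by
      refine ucurve_meridian (by norm_num) (by norm_num) fun t ht => ?_
      have := ht.1
      have := ht.2
      constructor <;> linarith
    have u2 : UCurve (fun t => (m (1 * (t - s₀)) * Real.cos (Th (1 / 4) χ₁),
        m (1 * (t - s₀)) * Real.sin (Th (1 / 4) χ₁), 1 * (t - s₀))) s₀ T₁ := by
      refine ucurve_meridian (by norm_num) (Real.cos_sq_add_sin_sq _) fun t ht => ?_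
      have := ht.1
      have := ht.2
      have := hr₁mem.1
      have := hr₁mem.2
      constructor <;> linarith
    have hm0 : m 0 = 0 := by
      unfold m
      rw [psi_zero, Real.sin_zero, mul_zero]
    have u12 := u1.glue (by linarith) (by linarith [hr₁mem.1]) u2 (by
      simp [hm0])
    have u3 := u12.glue (by linarith [hr₁mem.1]) ht (hU T₁ t) (by
      have hne : ¬ T₁ ≤ s₀ := by linarith [hr₁mem.1]
      simp only [hne, if_false]
      simp only [hγ, hXT]
      have e : 1 * (T₁ - s₀) = r₁ := by ring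
      rw [e]
      rfl)
    have hle := rdist_le (by linarith [hr₁mem.1]) u3
    have e1 : ¬ t ≤ T₁ ∨ t = T₁ := by
      rcases eq_or_lt_of_le ht with h | h
      · right; exact h.symm
      · left; linarith
    have hend : (fun t_1 : ℝ => if t_1 ≤ T₁ then (if t_1 ≤ s₀ then (m ((-1) * (t_1 - s₀)) * 1,
        m ((-1) * (t_1 - s₀)) * 0, (-1) * (t_1 - s₀)) else
        (m (1 * (t_1 - s₀)) * Real.cos (Th (1 / 4) χ₁),
        m (1 * (t_1 - s₀)) * Real.sin (Th (1 / 4) χ₁), 1 * (t_1 - s₀))) else γ t_1) t = γ t := by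
      rcases e1 with h | h
      · simp only [h, if_false]
      · have hne : ¬ T₁ ≤ s₀ := by linarith [hr₁mem.1]
        simp only [h, le_refl, if_true, hne, if_false]
        simp only [hγ, hXT]
        have e : 1 * (T₁ - s₀) = r₁ := by ring
        rw [e]
        rfl
    have hstart : (fun t_1 : ℝ => if t_1 ≤ T₁ then (if t_1 ≤ s₀ then (m ((-1) * (t_1 - s₀)) * 1,
        m ((-1) * (t_1 - s₀)) * 0, (-1) * (t_1 - s₀)) else
        (m (1 * (t_1 - s₀)) * Real.cos (Th (1 / 4) χ₁),
        m (1 * (t_1 - s₀)) * Real.sin (Th (1 / 4) χ₁), 1 * (t_1 - s₀))) else γ t_1) a = p := by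
      have i1 : a ≤ T₁ := by linarith [hr₁mem.1]
      have i2 : a ≤ s₀ := by linarith
      simp only [i1, i2, if_true]
      have e : (-1) * (a - s₀) = Real.pi / 2 := by rw [ha]; ring
      rw [e, hp]
      simp [polar]
    have hle2 : rdist m p (γ t) ≤ t - a := by
      rw [← hstart, ← hend]
      exact hle
    have hT := T_end
    rw [← hχ₁, ← hr₁, ← hT₁] at hT
    linarith
  -- near the start point
  have hnear : rdist m p (γ (1 / 10)) = 1 / 10 := by
    apply le_antisymm
    · have := rdist_le (by norm_num) (hU 0 (1 / 10))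
      rw [hγ0] at this
      linarith
    · have hlen : ∫ t in (0 : ℝ)..(1 / 10), speed m γ t = 1 / 10 := by
        rw [(hU 0 (1 / 10)).length (by norm_num)]
        norm_num
      have hc := (hU 0 (1 / 10)).1
      obtain ⟨n1, n2⟩ := near (by norm_num) hc hγ0 (by rw [hlen]; norm_num)
      obtain ⟨s1, s2, s3⟩ := Sf_change (by norm_num) hc n1 n2
      have hS : Sf (γ (1 / 10)) - Sf p = 1 / 10 := by
        rw [← hγ0, ← s2]
        have : ∫ t in (0 : ℝ)..(1 / 10), deriv (fun s => Sf (γ s)) t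
            = ∫ t in (0 : ℝ)..(1 / 10), (1 : ℝ) := by
          refine intervalIntegral.integral_congr_ae ?_
          filter_upwards [s3] with t ht hm
          rw [uIoc_of_le (by norm_num)] at hm
          have hm' := Ioc_subset_Icc_self hm
          rw [ht hm']
          have hmge := n2 t hm'
          have hmge' : 4 / 9 ≤ m (R (Ps (1 / 4) (X t))) := hmge
          have hXt0 : 0 ≤ X t := by
            rw [← hX0]
            exact Xm.monotone hm'.1
          have hXt1 : X t ≤ 1 := by
            have hTm : 5 / 6 * (X t - 0) ≤ T (1 / 4) (X t) - T (1 / 4) 0 := by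
              refine Convex.mul_sub_le_image_sub_of_le_deriv (D := Icc 0 (X t))
                (convex_Icc _ _) (fun χ _ => (T_deriv _ χ).continuousAt.continuousWithinAt)
                (fun χ _ => (T_deriv _ χ).differentiableAt.differentiableWithinAt)
                (fun χ _ => ?_) 0 ⟨le_rfl, hXt0⟩ (X t) ⟨hXt0, le_rfl⟩ hXt0
              rw [(T_deriv _ χ).deriv]
              linarith [g_ge (sf (1 / 4) χ)]
            rw [X2 t, hT0] at hTm
            linarith [hm'.2]
          have hcos : 0 ≤ Real.cos (X t) :=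
            Real.cos_nonneg_of_mem_Icc ⟨by linarith, by linarith⟩
          have hang := angular (gr_deriv h0 h1 X3) (gth_deriv h0 h1 X3) t
          have hrd := (gr_deriv h0 h1 X3 t).deriv
          have hun := g_unit h0 h1 X3 t
          have hs := sf_pos h0 h1 (X t)
          have hsq := Real.sqrt_pos.2 hs
          have hsq2 := Real.sq_sqrt hs.le
          have hkk := kf_sq hmge'
          have hmg := m_gr h0 h1 X3 t
          set q : ℝ := Real.sqrt (1 - (1 / 4) ^ 2) * Real.cos (X t) / Real.sqrt (sf (1 / 4) (X t))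
            with hqd
          have hq0 : 0 ≤ q := by positivity
          have hqk : kf (R (Ps (1 / 4) (X t))) = q := by
            have e1 : q ^ 2 = 1 - (2 / 9 / m (R (Ps (1 / 4) (X t)))) ^ 2 := by
              have e2 : m (R (Ps (1 / 4) (X t))) ^ 2 * (1 / 4 / (8 / 9 * sf (1 / 4) (X t))) ^ 2
                  = (2 / 9 / m (R (Ps (1 / 4) (X t)))) ^ 2 := by
                rw [hmg, div_pow, div_pow, mul_pow, mul_pow, hsq2]
                field_simp
                norm_num
                linear_combination 64 * hsq2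
              rw [e2] at hun
              linarith
            rw [← e1] at hkk
            exact (pow_left_inj₀ (kf_nonneg _) hq0 two_ne_zero).1 hkk
          have hmm : m (R (Ps (1 / 4) (X t))) ^ 2 * (1 / 4 / (8 / 9 * sf (1 / 4) (X t)))
              = 2 / 9 := by
            rw [hmg, mul_pow, hsq2]
            field_simp
            norm_num
          have hgoal : 2 / 9 * (((γ t).1 * deriv (fun s => (γ s).2.1) t -
              (γ t).2.1 * deriv (fun s => (γ s).1) t) / m (R (Ps (1 / 4) (X t))) ^ 2) -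
              kf (R (Ps (1 / 4) (X t))) * deriv (fun t => R (Ps (1 / 4) (X t))) t = 1 := by
            rw [hang, hmm, hrd, hqk]
            rw [hqk] at hkk
            have e3 : (2 / 9 / m (R (Ps (1 / 4) (X t)))) ^ 2
                = 2 / 9 * (2 / 9 / m (R (Ps (1 / 4) (X t))) ^ 2) := by
              rw [div_pow]; ring
            rw [e3] at hkk
            linear_combination hkk
          exact hgoal
        rw [this]
        simp
      refine le_csInf ⟨_, 0, 1 / 10, γ, by norm_num, hc, hγ0, rfl, rfl⟩ ?_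
      rintro L ⟨a, b, c, hab, hcc, ca, cb, rfl⟩
      by_contra hlt
      push Not at hlt
      obtain ⟨m1, m2⟩ := near hab hcc ca (by linarith)
      have := lower hab hcc m1 m2
      rw [ca, cb, hS] at this
      linarith
  set A : Set ℝ := {t : ℝ | 0 < t ∧ rdist m p (γ t) = t} with hA
  have hA1 : (1 / 10 : ℝ) ∈ A := ⟨by norm_num, hnear⟩
  have hA2 : ∀ t ∈ A, t ≤ T₁ := by
    intro t ht
    by_contra hcon
    push Not at hcon
    have := hbeyond t hcon.le
    rw [ht.2] at this
    exact lt_irrefl _ this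
  have hbdd : BddAbove A := ⟨T₁, hA2⟩
  have hlub := isLUB_csSup ⟨_, hA1⟩ hbdd
  set τ : ℝ := sSup A with hτ
  have hτ1 : 1 / 10 ≤ τ := le_csSup hbdd hA1
  have hτ2 : τ ≤ T₁ := csSup_le ⟨_, hA1⟩ hA2
  refine ⟨Real.pi / 2, ⟨by linarith, by linarith⟩, fun hsub => ?_⟩
  have hmem : γ τ ∈ cutLocus m (polar m (Real.pi / 2) 0) :=
    ⟨γ, Or.inl (isGeodesic h0 h1 X3), hγ0, τ, hlub, rfl⟩
  obtain ⟨r, hr, hq⟩ := hsub hmem
  have hy : (γ τ).2.1 = 0 := by
    rw [hq]
    simp [polar]
  have hThm : StrictMono (Th (1 / 4)) := strictMono_of_deriv_pos fun χ => by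
    rw [(Th_deriv h0 h1 χ).deriv]
    have hs := sf_pos h0 h1 χ
    have hs1 := sf_le h0 h1 χ
    have : 1 ≤ 1 / sf (1 / 4) χ := by rw [le_div_iff₀ hs]; linarith
    have : 0 < 1 / sf (1 / 4) χ - 1 / 2 + sf (1 / 4) χ := by linarith
    positivity
  have hXτ1 : 0 < X τ := by
    rw [← hX0]
    exact Xm (by linarith)
  have hXτ2 : X τ ≤ χ₁ := by
    rw [← hXT]
    exact Xm.monotone hτ2
  have hθ1 : 0 < Th (1 / 4) (X τ) := by
    have := hThm hXτ1
    rwa [Th_zero h0 h1] at this
  have hθ2 : Th (1 / 4) (X τ) < Real.pi := lt_of_le_of_lt (hThm.monotone hXτ2) Th_end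
  have hpos : 0 < (γ τ).2.1 :=
    mul_pos (isProfile.pos _ (gr_mem h0 h1 X3 τ)) (Real.sin_pos_of_pos_of_lt_pi hθ1 hθ2)
  rw [hy] at hpos
  exact lt_irrefl _ hpos

end Q195.CutLoc
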