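import Pool.Agent.Q195.CutLoc.Curves

/-!
# The geodesic and the meridians are curves of speed one
-/

open MeasureTheory Set Filter

namespace Q195.CutLoc

theorem m_continuous : Continuous m := continuous_iff_continuousAt.2 fun t =>
  (m_deriv t).continuousAt

theorem m_hasDerivAt (r : ℝ) : HasDerivAt m (deriv m r) r := (m_deriv r).differentiableAt.hasDerivAt

theorem deriv_m_continuous : Continuous (deriv m) :=
  isProfile.smooth.continuous_deriv (by simp)

/-- Curves in polar coordinates. -/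
theorem ucurve_polar {r θ r' θ' : ℝ → ℝ} (hr : ∀ t, HasDerivAt r (r' t) t)
    (hθ : ∀ t, HasDerivAt θ (θ' t) t) (hrc : Continuous r') (hθc : Continuous θ')
    (hmem : ∀ t, r t ∈ Ioo 0 Real.pi) (h1 : ∀ t, r' t ^ 2 + m (r t) ^ 2 * θ' t ^ 2 = 1)
    (a b : ℝ) : UCurve (fun t => polar m (r t) (θ t)) a b := by
  have hrcont : Continuous r := continuous_iff_continuousAt.2 fun t => (hr t).continuousAt
  have hθcont : Continuous θ := continuous_iff_continuousAt.2 fun t => (hθ t).continuousAt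
  have hmc := m_continuous
  have hdmc := deriv_m_continuous
  have hM : ∀ t, HasDerivAt (fun t => m (r t)) (deriv m (r t) * r' t) t := fun t =>
    HasDerivAt.comp (h₂ := m) t (m_hasDerivAt (r t)) (hr t)
  have hx : ∀ t, HasDerivAt (fun t => m (r t) * Real.cos (θ t))
      (deriv m (r t) * r' t * Real.cos (θ t) + m (r t) * (-Real.sin (θ t) * θ' t)) t := fun t =>
    (hM t).mul (hθ t).cos
  have hy : ∀ t, HasDerivAt (fun t => m (r t) * Real.sin (θ t))
      (deriv m (r t) * r' t * Real.sin (θ t) + m (r t) * (Real.cos (θ t) * θ' t)) t := fun t =>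
    (hM t).mul (hθ t).sin
  refine ⟨⟨?_, ?_, ?_, ?_⟩, ?_⟩
  · exact AC.of_deriv hx (by fun_prop)
  · exact AC.of_deriv hy (by fun_prop)
  · exact AC.of_deriv hr hrc
  · intro t _
    refine ⟨(hmem t).1.le, (hmem t).2.le, ?_⟩
    change (m (r t) * Real.cos (θ t)) ^ 2 + (m (r t) * Real.sin (θ t)) ^ 2 = m (r t) ^ 2
    linear_combination (m (r t) ^ 2) * Real.sin_sq_add_cos_sq (θ t)
  · refine Eventually.of_forall fun t _ => ?_
    have hm := isProfile.pos _ (hmem t)
    unfold speed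
    change Real.sqrt (deriv r t ^ 2 + ((m (r t) * Real.cos (θ t) *
      deriv (fun s => m (r s) * Real.sin (θ s)) t -
      m (r t) * Real.sin (θ t) * deriv (fun s => m (r s) * Real.cos (θ s)) t) / m (r t)) ^ 2) = 1
    rw [(hr t).deriv, (hx t).deriv, (hy t).deriv, Real.sqrt_eq_one, ← h1 t]
    congr 1
    rw [← mul_pow]
    congr 1
    rw [div_eq_iff hm.ne']
    linear_combination (m (r t) ^ 2 * θ' t) * Real.sin_sq_add_cos_sq (θ t)

/-- Meridians. -/
theorem ucurve_meridian {σ t₀ ca sa a b : ℝ} (hσ : σ ^ 2 = 1) (hcs : ca ^ 2 + sa ^ 2 = 1)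
    (hmem : ∀ t ∈ Icc a b, 0 ≤ σ * (t - t₀) ∧ σ * (t - t₀) ≤ Real.pi) :
    UCurve (fun t => (m (σ * (t - t₀)) * ca, m (σ * (t - t₀)) * sa, σ * (t - t₀))) a b := by
  have hmc := m_continuous
  have hdmc := deriv_m_continuous
  have hr : ∀ t, HasDerivAt (fun t => σ * (t - t₀)) σ t := fun t => by
    simpa using ((hasDerivAt_id t).sub_const t₀).const_mul σ
  have hM : ∀ t, HasDerivAt (fun t => m (σ * (t - t₀))) (deriv m (σ * (t - t₀)) * σ) t := fun t =>
    HasDerivAt.comp (h₂ := m) t (m_hasDerivAt _) (hr t)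
  have hx : ∀ t, HasDerivAt (fun t => m (σ * (t - t₀)) * ca)
      (deriv m (σ * (t - t₀)) * σ * ca) t := fun t => (hM t).mul_const ca
  have hy : ∀ t, HasDerivAt (fun t => m (σ * (t - t₀)) * sa)
      (deriv m (σ * (t - t₀)) * σ * sa) t := fun t => (hM t).mul_const sa
  refine ⟨⟨?_, ?_, ?_, ?_⟩, ?_⟩
  · exact AC.of_deriv hx (by fun_prop)
  · exact AC.of_deriv hy (by fun_prop)
  · exact AC.of_deriv hr continuous_const
  · intro t ht
    refine ⟨(hmem t ht).1, (hmem t ht).2, ?_⟩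
    change (m (σ * (t - t₀)) * ca) ^ 2 + (m (σ * (t - t₀)) * sa) ^ 2 = m (σ * (t - t₀)) ^ 2
    linear_combination (m (σ * (t - t₀)) ^ 2) * hcs
  · refine Eventually.of_forall fun t _ => ?_
    unfold speed
    change Real.sqrt (deriv (fun t => σ * (t - t₀)) t ^ 2 + ((m (σ * (t - t₀)) * ca *
      deriv (fun t => m (σ * (t - t₀)) * sa) t -
      m (σ * (t - t₀)) * sa * deriv (fun t => m (σ * (t - t₀)) * ca) t) /
        m (σ * (t - t₀))) ^ 2) = 1
    rw [(hr t).deriv, (hx t).deriv, (hy t).deriv, Real.sqrt_eq_one, hσ]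
    ring

section
variable {μ : ℝ} (h0 : 0 < μ) (h1 : μ < 1) {X : ℝ → ℝ}
  (hX : ∀ y, HasDerivAt X (1 / (8 / 9 * g (sf μ (X y)))) y)
include h0 h1 hX

theorem gr_deriv (t : ℝ) : HasDerivAt (fun t => R (Ps μ (X t)))
    (-(Real.sqrt (1 - μ ^ 2) * Real.cos (X t) / Real.sqrt (sf μ (X t)))) t := by
  have h := (rho_deriv h0 h1 (X t)).comp t (hX t)
  refine h.congr_deriv ?_
  have hg := g_pos (sf μ (X t))
  have hs := Real.sqrt_pos.2 (sf_pos h0 h1 (X t))
  field_simp

theorem gth_deriv (t : ℝ) : HasDerivAt (fun t => Th μ (X t)) (μ / (8 / 9 * sf μ (X t))) t := by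
  have h := (Th_deriv h0 h1 (X t)).comp t (hX t)
  refine h.congr_deriv ?_
  have hg := g_pos (sf μ (X t))
  have hs := sf_pos h0 h1 (X t)
  have e : 1 / sf μ (X t) - 1 / 2 + sf μ (X t) = g (sf μ (X t)) / sf μ (X t) := by
    unfold g
    field_simp
  rw [e]
  field_simp

theorem gr_mem (t : ℝ) : R (Ps μ (X t)) ∈ Ioo 0 Real.pi := by
  have h := Ps_mem h0 h1 (X t)
  have e1 := R_mono h.1
  have e2 := R_mono h.2
  rw [R_zero] at e1
  rw [R_pi] at e2
  exact ⟨e1, e2⟩

theorem m_gr (t : ℝ) : m (R (Ps μ (X t))) = 8 / 9 * Real.sqrt (sf μ (X t)) := by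
  rw [m_R, sin_Ps h0 h1]

theorem g_unit (t : ℝ) :
    (-(Real.sqrt (1 - μ ^ 2) * Real.cos (X t) / Real.sqrt (sf μ (X t)))) ^ 2 +
      m (R (Ps μ (X t))) ^ 2 * (μ / (8 / 9 * sf μ (X t))) ^ 2 = 1 := by
  have ha := a_pos h0 h1
  have hsa2 := Real.sq_sqrt ha.le
  have hs := sf_pos h0 h1 (X t)
  rw [m_gr h0 h1 hX, mul_pow, Real.sq_sqrt hs.le, neg_sq, div_pow, mul_pow, Real.sq_sqrt hs.le,
    hsa2]
  have e3 := Real.sin_sq_add_cos_sq (X t)
  have e2 : sf μ (X t) = 1 - (1 - μ ^ 2) * Real.sin (X t) ^ 2 := rfl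
  field_simp
  linear_combination (1 - μ ^ 2) * e3 - e2

theorem g_ucurve (a b : ℝ) :
    UCurve (fun t => polar m (R (Ps μ (X t))) (Th μ (X t))) a b := by
  have hXc : Continuous X := continuous_iff_continuousAt.2 fun t => (hX t).continuousAt
  have hsc := (sf_continuous h0 h1).comp hXc
  refine ucurve_polar (gr_deriv h0 h1 hX) (gth_deriv h0 h1 hX) ?_ ?_ (gr_mem h0 h1 hX)
    (g_unit h0 h1 hX) a b
  · exact (((continuous_const.mul (Real.continuous_cos.comp hXc)).div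
      (Real.continuous_sqrt.comp hsc) fun t =>
        (Real.sqrt_pos.2 (sf_pos h0 h1 (X t))).ne')).neg
  · exact continuous_const.div (continuous_const.mul hsc) fun t =>
      (mul_pos (by norm_num) (sf_pos h0 h1 (X t))).ne'
end

end Q195.CutLoc
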