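import Pool.Agent.Q195.CutLoc.Defs

/-!
# The profile
-/

open MeasureTheory Set Filter

namespace Q195.CutLoc

/-- Inverse functions of smooth functions with derivative bounded below. -/
theorem exists_inverse {f f' : ℝ → ℝ} {k : ℝ} (hk : 0 < k) (hf : ∀ x, HasDerivAt f (f' x) x)
    (hc : ∀ x, k ≤ f' x) (hfs : ContDiff ℝ (⊤ : ℕ∞) f) :
    ∃ h : ℝ → ℝ, (∀ x, h (f x) = x) ∧ (∀ y, f (h y) = y) ∧
      (∀ y, HasDerivAt h (1 / f' (h y)) y) ∧ ContDiff ℝ (⊤ : ℕ∞) h ∧ StrictMono h := by
  have hmono : StrictMono f := strictMono_of_deriv_pos fun x => by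
    rw [(hf x).deriv]; exact hk.trans_le (hc x)
  have hcont : Continuous f := hfs.continuous
  have hM : Monotone (fun x => f x - k * x) := by
    refine monotone_of_deriv_nonneg ?_ fun x => ?_
    · intro x
      exact ((hf x).sub ((hasDerivAt_id x).const_mul k)).differentiableAt
    · have h1 : HasDerivAt (fun x => f x - k * x) (f' x - k * 1) x :=
        (hf x).sub ((hasDerivAt_id x).const_mul k)
      rw [h1.deriv]
      linarith [hc x]
  have hlin : ∀ x, 0 ≤ x → f 0 + k * x ≤ f x := by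
    intro x hx
    have := hM hx
    simp only [mul_zero, sub_zero] at this
    linarith
  have hlin' : ∀ x, x ≤ 0 → f x ≤ f 0 + k * x := by
    intro x hx
    have := hM hx
    simp only [mul_zero, sub_zero] at this
    linarith
  have ht : Tendsto f atTop atTop := by
    refine tendsto_atTop_mono' _ ?_ (tendsto_atTop_add_const_left _ (f 0)
      (tendsto_id.const_mul_atTop hk))
    filter_upwards [eventually_ge_atTop 0] with x hx using hlin x hx
  have hb : Tendsto f atBot atBot := by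
    refine tendsto_atBot_mono' _ ?_ (tendsto_atBot_add_const_left _ (f 0)
      (tendsto_id.const_mul_atBot hk))
    filter_upwards [eventually_le_atBot 0] with x hx using hlin' x hx
  have hsurj : Function.Surjective f := hcont.surjective ht hb
  set e : ℝ ≃o ℝ := hmono.orderIsoOfSurjective f hsurj with he
  have hef : ∀ x, e x = f x := fun x => rfl
  set φ : ℝ ≃ₜ ℝ := e.toHomeomorph with hφ
  have h1 : ∀ x, φ.symm (f x) = x := fun x => φ.symm_apply_apply x
  have h2 : ∀ y, f (φ.symm y) = y := fun y => φ.apply_symm_apply y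
  refine ⟨φ.symm, h1, h2, fun y => ?_, ?_, e.symm.strictMono⟩
  · have := HasDerivAt.of_local_left_inverse (f := f) (g := φ.symm) (a := y)
      (f' := f' (φ.symm y)) φ.symm.continuous.continuousAt (hf _)
      (ne_of_gt (hk.trans_le (hc _))) (Eventually.of_forall h2)
    rw [one_div]
    exact this
  · exact φ.contDiff_symm_deriv (f' := f') (fun x => ne_of_gt (hk.trans_le (hc x))) hf hfs

/-- `g(s) = 1 - s/2 + s²`. -/
noncomputable def g (s : ℝ) : ℝ := 1 - s / 2 + s ^ 2

theorem g_ge (s : ℝ) : 15 / 16 ≤ g s := by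
  unfold g
  nlinarith [sq_nonneg (s - 1 / 4)]

theorem g_pos (s : ℝ) : 0 < g s := lt_of_lt_of_le (by norm_num) (g_ge s)

theorem g_le {s : ℝ} (h0 : 0 ≤ s) (h1 : s ≤ 1) : g s ≤ 3 / 2 := by
  unfold g
  nlinarith

/-- The arclength of the meridian as a function of `ψ`. -/
noncomputable def R (ψ : ℝ) : ℝ := ψ - Real.sin (2 * ψ) / 9 + Real.sin (4 * ψ) / 36

theorem R_deriv (ψ : ℝ) : HasDerivAt R (8 / 9 * g (Real.sin ψ ^ 2)) ψ := by
  have h2 : HasDerivAt (fun ψ : ℝ => Real.sin (2 * ψ)) (2 * Real.cos (2 * ψ)) ψ := by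
    have := ((hasDerivAt_id ψ).const_mul 2).sin
    refine this.congr_deriv ?_
    simp; ring
  have h4 : HasDerivAt (fun ψ : ℝ => Real.sin (4 * ψ)) (4 * Real.cos (4 * ψ)) ψ := by
    have := ((hasDerivAt_id ψ).const_mul 4).sin
    refine this.congr_deriv ?_
    simp; ring
  have h := ((hasDerivAt_id ψ).fun_sub (h2.div_const 9)).fun_add (h4.div_const 36)
  refine h.congr_deriv ?_
  have e4 : Real.cos (4 * ψ) = 2 * Real.cos (2 * ψ) ^ 2 - 1 := by
    rw [show 4 * ψ = 2 * (2 * ψ) by ring, Real.cos_two_mul]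
  rw [e4, Real.cos_two_mul, Real.cos_sq']
  unfold g
  ring

theorem R_smooth : ContDiff ℝ (⊤ : ℕ∞) R := by
  unfold R
  fun_prop

/-- The inverse of `R`. -/
noncomputable def psi : ℝ → ℝ := (exists_inverse (k := 1 / 2) (by norm_num) R_deriv
  (fun x => by linarith [g_ge (Real.sin x ^ 2)]) R_smooth).choose

theorem psi_spec : (∀ x, psi (R x) = x) ∧ (∀ y, R (psi y) = y) ∧
    (∀ y, HasDerivAt psi (1 / (8 / 9 * g (Real.sin (psi y) ^ 2))) y) ∧
    ContDiff ℝ (⊤ : ℕ∞) psi ∧ StrictMono psi :=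
  (exists_inverse (k := 1 / 2) (by norm_num) R_deriv
  (fun x => by linarith [g_ge (Real.sin x ^ 2)]) R_smooth).choose_spec

/-- The profile. -/
noncomputable def m (r : ℝ) : ℝ := 8 / 9 * Real.sin (psi r)

theorem m_R (x : ℝ) : m (R x) = 8 / 9 * Real.sin x := by
  unfold m
  rw [psi_spec.1]

theorem m_deriv (r : ℝ) : HasDerivAt m (Real.cos (psi r) / g (Real.sin (psi r) ^ 2)) r := by
  have h := ((Real.hasDerivAt_sin (psi r)).comp r (psi_spec.2.2.1 r)).const_mul (8 / 9)
  refine h.congr_deriv ?_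
  have := g_pos (Real.sin (psi r) ^ 2)
  field_simp

theorem R_zero : R 0 = 0 := by simp [R]

theorem R_neg (x : ℝ) : R (-x) = -R x := by
  simp only [R, mul_neg, Real.sin_neg]
  ring

theorem R_pi_sub (x : ℝ) : R (Real.pi - x) = Real.pi - R x := by
  have h2 : Real.sin (2 * (Real.pi - x)) = -Real.sin (2 * x) := by
    rw [show 2 * (Real.pi - x) = 2 * Real.pi - 2 * x by ring, Real.sin_two_pi_sub]
  have h4 : Real.sin (4 * (Real.pi - x)) = -Real.sin (4 * x) := by
    rw [show 4 * (Real.pi - x) = 2 * Real.pi - 4 * x + 2 * Real.pi by ring,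
      Real.sin_add_two_pi, Real.sin_two_pi_sub]
  unfold R
  rw [h2, h4]
  ring

theorem R_pi : R Real.pi = Real.pi := by
  have := R_pi_sub 0
  rw [sub_zero, R_zero, sub_zero] at this
  exact this

theorem R_pi_div_two : R (Real.pi / 2) = Real.pi / 2 := by
  have := R_pi_sub (Real.pi / 2)
  rw [show Real.pi - Real.pi / 2 = Real.pi / 2 by ring] at this
  linarith

theorem R_mono : StrictMono R := strictMono_of_deriv_pos fun x => by
  rw [(R_deriv x).deriv]
  have := g_pos (Real.sin x ^ 2)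
  positivity

theorem psi_zero : psi 0 = 0 := by
  have := psi_spec.1 0
  rwa [R_zero] at this

theorem psi_pi : psi Real.pi = Real.pi := by
  have := psi_spec.1 Real.pi
  rwa [R_pi] at this

theorem psi_pi_div_two : psi (Real.pi / 2) = Real.pi / 2 := by
  have := psi_spec.1 (Real.pi / 2)
  rwa [R_pi_div_two] at this

theorem psi_neg (r : ℝ) : psi (-r) = -psi r := by
  rw [← psi_spec.2.1 r, ← R_neg, psi_spec.1, psi_spec.2.1 r]

theorem psi_pi_sub (r : ℝ) : psi (Real.pi - r) = Real.pi - psi r := by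
  conv_lhs => rw [← psi_spec.2.1 r, ← R_pi_sub, psi_spec.1]

theorem psi_mem {r : ℝ} (hr : r ∈ Ioo 0 Real.pi) : psi r ∈ Ioo 0 Real.pi := by
  have h1 := psi_spec.2.2.2.2 hr.1
  have h2 := psi_spec.2.2.2.2 hr.2
  rw [psi_zero] at h1
  rw [psi_pi] at h2
  exact ⟨h1, h2⟩

theorem psi_mem' {r : ℝ} (hr : r ∈ Ioo 0 (Real.pi / 2)) : psi r ∈ Ioo 0 (Real.pi / 2) := by
  have h1 := psi_spec.2.2.2.2 hr.1
  have h2 := psi_spec.2.2.2.2 hr.2
  rw [psi_zero] at h1
  rw [psi_pi_div_two] at h2
  exact ⟨h1, h2⟩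

theorem isProfile : IsProfile m where
  smooth := contDiff_const.mul (Real.contDiff_sin.comp psi_spec.2.2.2.1)
  odd := fun r => by
    unfold m
    rw [psi_neg, Real.sin_neg]; ring
  symm := fun r => by
    unfold m
    rw [psi_pi_sub, Real.sin_pi_sub]
  pos := fun r hr => by
    have h := psi_mem hr
    have := Real.sin_pos_of_pos_of_lt_pi h.1 h.2
    unfold m
    positivity
  deriv_zero := by
    rw [(m_deriv 0).deriv, psi_zero]
    simp [g]
  deriv_pos := fun r hr => by
    have h := psi_mem' hr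
    rw [(m_deriv r).deriv]
    have h1 := Real.cos_pos_of_mem_Ioo ⟨by linarith [h.1, Real.pi_pos], h.2⟩
    have h2 := g_pos (Real.sin (psi r) ^ 2)
    positivity

theorem m_deriv_abs_le (r : ℝ) : |deriv m r| ≤ 1 := by
  rw [(m_deriv r).deriv, abs_div, abs_of_pos (g_pos _), div_le_one (g_pos _)]
  rw [← Real.sqrt_sq_eq_abs, Real.sqrt_le_left (g_pos _).le]
  rw [Real.cos_sq']
  unfold g
  have := sq_nonneg (Real.sin (psi r))
  set s := Real.sin (psi r) ^ 2
  nlinarith [sq_nonneg (s - 1 / 4), sq_nonneg (s ^ 2), mul_nonneg this this, sq_nonneg s,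
    mul_nonneg this (sq_nonneg (s - 1 / 2)), sq_nonneg (s * (s - 1 / 2))]

end Q195.CutLoc
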